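import Pool.Agent.H859.AL.Seq

/-!
# The Tate conjecture for divisors in all dimensions at once: fibre products of a growing number of
# hyperelliptic fibrations, after small quadratic twists, over all layers of an infinite tower of covers

Let `k` be any finite field of odd characteristic, `K = k(t)`. Let `L_0 ⊆ L_1 ⊆ L_2 ⊆ ...` be ANY tower of
finite Galois extensions of `K` of 2-power degrees; the degrees may tend to infinity, and the tower may
contain the constant extensions `k'(t)` of degree `2 ^ i`, for all `i`. Let `m ≠ 0` be a polynomial which is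
divisible by all the primes of `k[t]` which are ramified in the tower. For instance the union of the `L_i` can
be the maximal pro-2-extension of `K` which is unramified outside `m` (and arbitrarily ramified at
infinity), or the tower of constants (with any `m`).

Let `g_0, g_1, g_2, ... ≥ 1` be ANY infinite sequence of genera. For each `j` a residue class `f₁_j` modulo
`m ^ 2` is given; `f₁_j` is monic of degree `2 g_j + 1`, irreducible modulo the primes ramified in the tower,
and its discriminant is not divisible by the square of a prime divisor of `m`. Let `F_(j,N)` be the set of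
the polynomials `f(x) = x ^ (2 g_j + 1) + ∑ f_i x ^ i` with `deg f_i ≤ 2 N (2 g_j + 1 - i)` for which

* the polynomial over `k` with the coefficients of `t ^ (2 N (2 g_j + 1 - i))` in the `f_i` is irreducible
  (good and irreducible reduction at infinity);
* the discriminant of `f` is squarefree (all the bad fibres have one node);
* `f` is congruent to `f₁_j` modulo `m ^ 2`.

It has positive density among all the monic polynomials of degree `2 g_j + 1` of the given height. For
`f_j ∈ F_(j,N)` and a squarefree polynomial `D_j` let `J_j` be the Jacobian of the curve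
`C_j : y ^ 2 = D_j ^ (2 g_j + 1) f_j(x / D_j)` over `K`.

Theorem. Let `w(N)` be ANY sequence of natural numbers which tends to infinity. There is a sequence `v(N)`
which tends to infinity such that for 100 percent of the `v(N)`-tuples `(f_j)`, `f_j ∈ F_(j,N)` for
`j < v(N)` (the proportion tends to `1` as `N` tends to infinity) there are squarefree polynomials `D_j` of
degrees at most `w(N)` with the following property: for ALL the fields `E` between `K` and `L_(v(N))` and
all `j < v(N)`, multiplication by two is bijective on `J_j(E)`, and all classes of 2-power order in the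
Tate-Shafarevich group of `J_j` over `E` are zero, even without conditions at the places over infinity.

Consequences for the problem. Let `E` be such a field, `B_E` the curve with function field `E` and `k_E` its
field of constants. By Artin, Tate and Milne the whole Tate-Shafarevich groups of the `J_j` over `E` are
finite. Let `X` be any smooth projective variety over `k_E` which is dominated by (for example birational to)
a fibre product over `B_E` of surfaces with the generic fibres `C_j`, `j < v(N)`, each taken any number of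
times; its dimension may be any number, for example `v(N) + 1`. The generic fibre of the fibre product over
`B_E` is a product of curves, for which the Tate conjecture for divisors over `E` is the theorem of Zarhin on
the homomorphisms of abelian varieties over function fields, and the Picard variety of the generic fibre
is a product of the `J_j`. So the Tate conjecture for divisors holds for `X` and all `l` (Geisser, Qin: for a
fibration over a curve over a finite field it is equivalent to the Tate conjecture for divisors on the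
generic fibre and the finiteness of the Tate-Shafarevich group of its Picard variety; it descends to
dominated varieties). If `κ` is any finitely generated field whose field of constants is one of the `k_E`,
then the Galois group of `κ` acts on the cohomology of `X ⊗ κ` through that of `k_E`, so that Q1 holds for
`X ⊗ κ` over `κ`, too. So Q1 holds, simultaneously in all dimensions up to a bound which tends to infinity,
for 100 percent of the tuples of fibrations of arbitrary genera, after a small twist of each, and over all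
the layers of the tower.

Here `J(E)` is given as the Picard group of the affine coordinate ring `E[x, y] / (y ^ 2 - F)` (the curve
has one point at infinity, which is rational), and the Tate-Shafarevich group is defined by continuous
cocycles on the absolute Galois group with values in `J` of the separable closure.

What was known. The library and this run have positive proportions of surfaces without a twist
(`MP_89bcae_ag.AllTowersOverGivenCover`). For twists the exponential bound for the exceptional sets of
curves is from `MP_60d5ce_nt.SmallTwistOfAlmostAll`; a fixed number of factors (with a tower given first, or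
with a rate and classes of fields) is treated in `MP_89bcae_ag.FibreProductsInTowers` and
`MP_8ac872_ag.FibreProductsOverGivenCover`, by the same author in this run. New here: infinitely many genera
and residue classes are given first and the number of factors, and so the dimension, tends to infinity; the
density of the good tuples is still `1`, although the density of the family itself in all the tuples tends
to `0` with the number of factors in general.

Proof. The constant `C_j` in the bound `C_j (1 - 1 / (32 g_j)) ^ t` for the exceptional set of `F_(j,N)` does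
not depend on the set of `t` primes whose divisors are used for the twist, nor on the layer of the tower.
For every `s` one takes `t(s)` primes which split completely in the layer `L_s` such that the sum of these
bounds over all `j < s` is at most `1 / (s + 1)`; a diagonal argument gives `v(N)`.

Helper files: `Pool/Agent/H859/AL/` (helper859, new); `Pool/Agent/H859/TWC/`, `Pool/Agent/H859/SC/`
(helper859), mostly after the files of the projects PJ (helper352), JM, TW (helper874) with parts by many
helpers of the run 63374d34; classification of quadratic forms: helper747; Gram matrices: helper644.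
-/

set_option autoImplicit false
set_option linter.all false

namespace Pool.Agent.Results.MP_17a657_ag.AllDimensionsAtOnce

open Polynomial Filter IsDedekindDomain Topology
open Pool.Agent.N874.Jac (UniquelyTwoDivisible ShaTwoTrivial)
open scoped Classical

/-- The monic polynomials of degree `2 g + 1` over `k[t]` and height at most `2 N`. -/
def Polynomials (k : Type) [Field k] (g N : ℕ) : Set k[X][X] :=
  {f | f.Monic ∧ f.natDegree = 2 * g + 1 ∧
    ∀ j ≤ 2 * g, (f.coeff j).natDegree ≤ 2 * N * (2 * g + 1 - j)}

/-- The reduction at infinity of `f`. -/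
noncomputable def atInfinity {k : Type} [Field k] (g N : ℕ) (f : k[X][X]) : k[X] :=
  X ^ (2 * g + 1) + ∑ j ∈ Finset.range (2 * g + 1),
    C ((f.coeff j).coeff (2 * N * (2 * g + 1 - j))) * X ^ j

/-- The surfaces `y ^ 2 = f(x, t)`: `f` is irreducible at infinity, with squarefree discriminant, congruent
to `f₁` modulo `m ^ 2`. -/
def Surfaces {k : Type} [Field k] (g : ℕ) (m : k[X]) (f₁ : k[X][X]) (N : ℕ) : Set k[X][X] :=
  {f ∈ Polynomials k g N | Irreducible (atInfinity g N f) ∧ Squarefree f.discr ∧
    ∀ j, m ^ 2 ∣ f.coeff j - f₁.coeff j}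

/-- The `r`-tuples of surfaces `y ^ 2 = f_j(x, t)`, `j < r`, of the genera `g_j` and in the residue classes
`f₁_j`. -/
def Tuples {k : Type} [Field k] (r : ℕ) (g : ℕ → ℕ) (m : k[X]) (f₁ : ℕ → k[X][X]) (N : ℕ) :
    Set (Fin r → k[X][X]) :=
  {f | ∀ j : Fin r, f j ∈ Surfaces (g j) m (f₁ j) N}

/-- Multiplication by two is bijective on `J(E)`, `J` the Jacobian of `y ^ 2 = F(x)`, and every class of
2-power order in `H ^ 1 (E, J)` which is zero over the completions of `E` at all maximal ideals of `R` is
zero. -/
def NoTwoPart (R : Type) {E : Type} [Field E] [CommRing R] [IsDedekindDomain R] [Algebra R E]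
    [IsFractionRing R E] (F : E[X]) : Prop :=
  UniquelyTwoDivisible F ∧ ShaTwoTrivial F R

/-- `f` is irreducible modulo `P`. -/
def IrreducibleMod {k : Type} [Field k] (f : k[X][X]) (P : k[X]) : Prop :=
  Irreducible (f.map (Ideal.Quotient.mk (Ideal.span {P})))

/-- `P` is unramified in the extension `R` of `k[t]`. -/
def Unramified {k : Type} [Field k] (R : Type) [CommRing R] [Algebra k[X] R] (P : k[X]) : Prop :=
  ∀ w : HeightOneSpectrum R, algebraMap k[X] R P ∈ w.asIdeal → algebraMap k[X] R P ∉ w.asIdeal ^ 2

/-- `L_0 ⊆ L_1 ⊆ L_2 ⊆ ...` is a tower of finite Galois extensions of `K` of 2-power degrees. -/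
structure IsTower (K Ω : Type) [Field K] [Field Ω] [Algebra K Ω] (L : ℕ → IntermediateField K Ω) :
    Prop where
  tower : Monotone L
  finite : ∀ i, FiniteDimensional K (L i)
  galois : ∀ i, IsGalois K (L i)
  degree : ∀ i, ∃ n : ℕ, Module.finrank K (L i) = 2 ^ n

/-- The Jacobian of `y ^ 2 = F(x)` has no 2-part over all the fields `E` between `K = k(t)` and `L`. Here
`R` is the integral closure of `k[t]` in `E`. -/
def NoTwoPartBelow {k : Type} [Field k] (K : Type) [Field K] [Algebra k[X] K]
    (L : Type) [Field L] [Algebra K L] [Algebra k[X] L] [IsScalarTower k[X] K L]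
    (F : k[X][X]) : Prop :=
  ∀ (E : IntermediateField K L) (R : Type) [CommRing R] [IsDedekindDomain R] [Algebra R E]
    [IsFractionRing R E] [Algebra k[X] R] [IsScalarTower k[X] R E] [IsIntegralClosure R k[X] E],
    NoTwoPart R (F.map (algebraMap k[X] E))

/-- For some squarefree `D` of degree at most `w` the quadratic twist by `D` of the Jacobian of
`y ^ 2 = f(x)`, the Jacobian of `y ^ 2 = D ^ (2 g + 1) f(x / D)`, has no 2-part over all the fields between
`K` and `L`. -/
def HasGoodTwist {k : Type} [Field k] (K : Type) [Field K] [Algebra k[X] K]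
    (L : Type) [Field L] [Algebra K L] [Algebra k[X] L] [IsScalarTower k[X] K L]
    (w : ℕ) (f : k[X][X]) : Prop :=
  ∃ D : k[X], Squarefree D ∧ D.natDegree ≤ w ∧ NoTwoPartBelow K L (f.scaleRoots D)

/-- Exceptional sets of tuples. -/
theorem tuples_bad {r : ℕ} {α : Type} (F : Fin r → Set α) (hF : ∀ j, (F j).Finite)
    (G : Fin r → α → Prop) (c : Fin r → ℝ)
    (h : ∀ j, ({f ∈ F j | ¬ G j f}.ncard : ℝ) ≤ c j * ((F j).ncard : ℝ)) :
    ({f : Fin r → α | (∀ j, f j ∈ F j) ∧ ¬ ∀ j, G j (f j)}.ncard : ℝ) ≤
      (∑ j, c j) * ({f : Fin r → α | ∀ j, f j ∈ F j}.ncard : ℝ) := by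
  obtain ⟨U, hU⟩ : ∃ U : Fin r → Fin r → Set α, U = fun i => Function.update F i {x ∈ F i | ¬ G i x} :=
    ⟨_, rfl⟩
  have hUi : ∀ i, U i i = {x ∈ F i | ¬ G i x} := fun i => by rw [hU]; exact Function.update_self _ _ _
  have hUj : ∀ i j, j ≠ i → U i j = F j := fun i j hj => by
    rw [hU]; exact Function.update_of_ne hj _ _
  have hUf : ∀ i j, (U i j).Finite := by
    intro i j
    by_cases hj : j = i
    · subst hj
      rw [hUi]
      exact (hF j).subset fun f hf => hf.1
    · rw [hUj i j hj]
      exact hF j
  obtain ⟨V, hV⟩ : ∃ V : Fin r → Set (Fin r → α), V = fun i => {f | ∀ j, f j ∈ U i j} := ⟨_, rfl⟩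
  have hVc : ∀ i, (V i).Finite ∧ (V i).ncard = ∏ j, (U i j).ncard := fun i => by
    rw [hV]
    exact Pool.Agent.H859.AL.ncard_tuples (U i) (hUf i)
  have hsub : {f : Fin r → α | (∀ j, f j ∈ F j) ∧ ¬ ∀ j, G j (f j)} ⊆ ⋃ i ∈ (Finset.univ : Finset (Fin r)), V i := by
    rintro f ⟨hf, hG⟩
    push Not at hG
    obtain ⟨i, hi⟩ := hG
    rw [Set.mem_iUnion₂]
    refine ⟨i, Finset.mem_univ _, ?_⟩
    rw [hV]
    intro j
    by_cases hj : j = i
    · subst hj
      rw [hUi]
      exact ⟨hf j, hi⟩
    · rw [hUj i j hj]
      exact hf j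
  have hfinU : (⋃ i ∈ (Finset.univ : Finset (Fin r)), V i).Finite :=
    Set.Finite.biUnion (Finset.finite_toSet _) fun i _ => (hVc i).1
  have h1 := Set.ncard_le_ncard hsub hfinU
  have h2 : (⋃ i ∈ (Finset.univ : Finset (Fin r)), V i).ncard ≤ ∑ i, (V i).ncard :=
    Finset.set_ncard_biUnion_le Finset.univ V
  have hT := (Pool.Agent.H859.AL.ncard_tuples F hF).2
  have h3 : ∀ i, ((V i).ncard : ℝ) ≤ c i * ({f : Fin r → α | ∀ j, f j ∈ F j}.ncard : ℝ) := by
    intro i
    rw [(hVc i).2, hT, Nat.cast_prod, Nat.cast_prod,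
      ← Finset.mul_prod_erase Finset.univ (fun j => ((U i j).ncard : ℝ)) (Finset.mem_univ i),
      ← Finset.mul_prod_erase Finset.univ (fun j => ((F j).ncard : ℝ)) (Finset.mem_univ i), hUi i]
    have e : ∏ j ∈ Finset.univ.erase i, ((U i j).ncard : ℝ) =
        ∏ j ∈ Finset.univ.erase i, ((F j).ncard : ℝ) :=
      Finset.prod_congr rfl fun j hj => by rw [hUj i j (Finset.ne_of_mem_erase hj)]
    rw [e, ← mul_assoc]
    exact mul_le_mul_of_nonneg_right (h i) (Finset.prod_nonneg fun j _ => Nat.cast_nonneg _)
  calc ({f : Fin r → α | (∀ j, f j ∈ F j) ∧ ¬ ∀ j, G j (f j)}.ncard : ℝ)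
      ≤ ∑ i, ((V i).ncard : ℝ) := by exact_mod_cast h1.trans h2
    _ ≤ ∑ i, c i * ({f : Fin r → α | ∀ j, f j ∈ F j}.ncard : ℝ) := Finset.sum_le_sum fun i _ => h3 i
    _ = _ := by rw [Finset.sum_mul]

/-- Let `k` be a finite field of odd characteristic, `K = k(t)`, `L_0 ⊆ L_1 ⊆ ...` a tower of finite Galois
extensions of `K` of 2-power degrees, `m ≠ 0`, and for ALL `j = 0, 1, 2, ...` let `g_j ≥ 1` and `f₁_j` be
monic of degree `2 g_j + 1` over `k[t]` such that the discriminant of `f₁_j` is not divisible by the square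
of a prime divisor of `m`, the primes which are ramified in the tower divide `m`, and `f₁_j` is irreducible
modulo these. Each of the families has positive density in the set of all equations of the same height. For
every sequence `w(N)` which tends to infinity there is a sequence `v(N)` which tends to infinity such that
the proportion of the `v(N)`-tuples of members of the families for which there are squarefree polynomials
`D_j` of degree at most `w(N)` such that for the quadratic twists `J_j` by `D_j` of the Jacobians of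
`y ^ 2 = f_j(x)`, `j < v(N)`, and ALL the fields `E` between `K` and `L_(v(N))` multiplication by two is
bijective on all `J_j(E)` and the 2-primary parts of the Tate-Shafarevich groups of all `J_j` over `E` are
zero, tends to `1`. -/
theorem result (g : ℕ → ℕ) (hg : ∀ j, 1 ≤ g j)
    (k : Type) [Field k] [Finite k] (hp : (2 : k) ≠ 0)
    (K : Type) [Field K] [Algebra k[X] K] [IsFractionRing k[X] K]
    (Ω : Type) [Field Ω] [Algebra K Ω] [Algebra k[X] Ω] [IsScalarTower k[X] K Ω]
    (L : ℕ → IntermediateField K Ω) (hL : IsTower K Ω L) (m : k[X]) (hm : m ≠ 0)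
    (f₁ : ℕ → k[X][X]) (hf₁ : ∀ j, (f₁ j).Monic) (hd₁ : ∀ j, (f₁ j).natDegree = 2 * g j + 1)
    (hdisc : ∀ (j : ℕ) (P : k[X]), Irreducible P → P ∣ m → ¬ P ^ 2 ∣ (f₁ j).discr)
    (hram : ∀ (i : ℕ) (P : k[X]), Irreducible P →
      Unramified (integralClosure k[X] (L i)) P ∨ (P ∣ m ∧ ∀ j, IrreducibleMod (f₁ j) P)) :
    (∀ j N : ℕ, (Polynomials k (g j) N).Finite) ∧
    (∀ j : ℕ, ∃ c : ℝ, 0 < c ∧ ∀ᶠ N : ℕ in atTop, 0 < (Surfaces (g j) m (f₁ j) N).ncard ∧
      c * ((Polynomials k (g j) N).ncard : ℝ) ≤ ((Surfaces (g j) m (f₁ j) N).ncard : ℝ)) ∧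
    ∀ w : ℕ → ℕ, Tendsto w atTop atTop → ∃ v : ℕ → ℕ, Tendsto v atTop atTop ∧
      Tendsto (fun N : ℕ =>
        ({f ∈ Tuples (v N) g m f₁ N | ∀ j, HasGoodTwist K (L (v N)) (w N) (f j)}.ncard : ℝ) /
          ((Tuples (v N) g m f₁ N).ncard : ℝ)) atTop (𝓝 1) := by
  have hall : ∀ g' N, Polynomials k g' N =
      {f : k[X][X] | Pool.Agent.H859.PJ.HtA g' (2 * N) f} := by
    intro g' N
    ext f
    exact ⟨fun h => ⟨h.1, h.2.1, h.2.2⟩, fun h => ⟨h.mon, h.deg, h.ht⟩⟩
  have hfam : ∀ j N, Surfaces (g j) m (f₁ j) N =
      Pool.Agent.H859.AL.Fam (g j) N (m ^ 2) (f₁ j) := by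
    intro j N
    ext f
    constructor
    · rintro ⟨h1, h2, h3, h4⟩
      exact ⟨⟨h1.1, h1.2.1, h1.2.2⟩, (Pool.Agent.H859.AL.irrInf_iff N f).2 h2,
        (Pool.Agent.H859.AL.sq_discr h1.1 h1.2.1).2 h3, h4⟩
    · rintro ⟨h1, h2, h3, h4⟩
      exact ⟨⟨h1.mon, h1.deg, h1.ht⟩, (Pool.Agent.H859.AL.irrInf_iff N f).1 h2,
        (Pool.Agent.H859.AL.sq_discr h1.mon h1.deg).1 h3, h4⟩
  have hGM := fun j => Pool.Agent.H859.TWC.goodM_sq hm (hf₁ j) (hd₁ j) (hdisc j)
  have hfin : ∀ g' N, (Polynomials k g' N).Finite := fun g' N => by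
    rw [hall]
    exact (Pool.Agent.H859.N415.PJMAIN.ht_card (k := k) g' (2 * N)).1
  have hfinF : ∀ j N, (Surfaces (g j) m (f₁ j) N).Finite := fun j N =>
    (hfin (g j) N).subset fun f hf => hf.1
  have hq : (0 : ℝ) < Nat.card k := by exact_mod_cast Nat.card_pos
  -- the density for each `j`
  have hpos : ∀ j, ∃ c : ℝ, 0 < c ∧ ∀ᶠ N : ℕ in atTop, 0 < (Surfaces (g j) m (f₁ j) N).ncard ∧
      c * ((Polynomials k (g j) N).ncard : ℝ) ≤ ((Surfaces (g j) m (f₁ j) N).ncard : ℝ) := by
    intro j
    obtain ⟨c, hc, N₀, hN₀⟩ := Pool.Agent.H859.AL.fam_pos (hg j) hp (hGM j)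
    refine ⟨c / (Nat.card k : ℝ) ^ (2 * g j + 1), by positivity, ?_⟩
    filter_upwards [eventually_ge_atTop N₀] with N hN
    obtain ⟨hF, hle⟩ := hN₀ N hN
    rw [hfam]
    have h1 : (0 : ℝ) < ((Pool.Agent.H859.AL.Fam (g j) N (m ^ 2) (f₁ j)).ncard : ℝ) :=
      lt_of_lt_of_le (by positivity) hle
    refine ⟨by exact_mod_cast h1, ?_⟩
    have h2 : ((Polynomials k (g j) N).ncard : ℝ) ≤
        (Nat.card k : ℝ) ^ (2 * N * Pool.Agent.H859.PJ.ddA (g j)) *
          (Nat.card k : ℝ) ^ (2 * g j + 1) := by
      rw [hall, ← pow_add]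
      exact_mod_cast (Pool.Agent.H859.N415.PJMAIN.ht_card (k := k) (g j) (2 * N)).2
    calc c / (Nat.card k : ℝ) ^ (2 * g j + 1) * ((Polynomials k (g j) N).ncard : ℝ)
        ≤ c / (Nat.card k : ℝ) ^ (2 * g j + 1) *
          ((Nat.card k : ℝ) ^ (2 * N * Pool.Agent.H859.PJ.ddA (g j)) *
            (Nat.card k : ℝ) ^ (2 * g j + 1)) := by gcongr
      _ = c * (Nat.card k : ℝ) ^ (2 * N * Pool.Agent.H859.PJ.ddA (g j)) := by field_simp
      _ ≤ _ := hle
  refine ⟨fun j N => hfin (g j) N, hpos, fun w hw => ?_⟩
  -- the exceptional sets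
  have hlev := fun j => Pool.Agent.H859.AL.level (hg j) hp K hm (hf₁ j) (hd₁ j) (hdisc j)
  choose C hC using hlev
  have hρ : ∀ j : ℕ, (0 : ℝ) ≤ 1 - 1 / (32 * (g j)) ∧ (1 : ℝ) - 1 / (32 * (g j)) < 1 := by
    intro j
    have hg' : (1 : ℝ) ≤ g j := by exact_mod_cast hg j
    have hρ1 : (1 : ℝ) / (32 * g j) ≤ 1 / 32 := by
      apply one_div_le_one_div_of_le (by norm_num)
      linarith
    have hρ2 : (0 : ℝ) < 1 / (32 * g j) := by positivity
    constructor <;> linarith
  -- the number of the primes for the layer `s`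
  have ht : ∀ s : ℕ, ∃ t : ℕ, ∑ j : Fin s, |C j| * (1 - 1 / (32 * (g j : ℝ))) ^ t ≤ 1 / ((s : ℝ) + 1) := by
    intro s
    have h1 : Tendsto (fun t : ℕ => ∑ j : Fin s, |C j| * (1 - 1 / (32 * (g j : ℝ))) ^ t) atTop
        (𝓝 (∑ j : Fin s, |C j| * 0)) :=
      tendsto_finset_sum _ fun j _ => (tendsto_pow_atTop_nhds_zero_of_lt_one (hρ j).1
        (hρ j).2).const_mul _
    simp only [mul_zero, Finset.sum_const_zero] at h1
    have h2 : (0 : ℝ) < 1 / ((s : ℝ) + 1) := by positivity
    obtain ⟨t, ht⟩ := (h1.eventually_le_const h2).exists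
    exact ⟨t, ht⟩
  choose t ht using ht
  have hs : ∀ s : ℕ, ∀ᶠ N : ℕ in atTop, ∀ j : Fin s, 0 < (Surfaces (g j) m (f₁ j) N).ncard ∧
      ({f ∈ Surfaces (g j) m (f₁ j) N | ¬ HasGoodTwist K (L s) (w N) f}.ncard : ℝ) ≤
        |C j| * (1 - 1 / (32 * (g j))) ^ (t s) * ((Surfaces (g j) m (f₁ j) N).ncard : ℝ) := by
    intro s
    rw [eventually_all]
    intro j
    haveI := hL.finite s
    haveI := hL.galois s
    haveI : IsScalarTower k[X] K (L s) := IntermediateField.isScalarTower _
    obtain ⟨n, hn⟩ := hL.degree s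
    have h1 := hC j (L s) n hn (fun P hP => by
      rcases hram s P hP with h | h
      · exact Or.inl h
      · exact Or.inr ⟨h.1, h.2 j⟩) w hw (t s)
    obtain ⟨c, hc, hcN⟩ := hpos j
    filter_upwards [h1, hcN] with N hN hN'
    refine ⟨hN'.1, ?_⟩
    rw [hfam]
    refine hN.trans ?_
    exact mul_le_mul_of_nonneg_right (mul_le_mul_of_nonneg_right (le_abs_self _)
      (pow_nonneg (hρ j).1 _)) (Nat.cast_nonneg _)
  obtain ⟨v, hv, hvb⟩ := Pool.Agent.H859.AL.diag _ hs
  refine ⟨v, hv, ?_⟩
  have hlow : Tendsto (fun N : ℕ => 1 - 1 / ((v N : ℝ) + 1)) atTop (𝓝 1) := by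
    have h1 : Tendsto (fun n : ℕ => 1 - 1 / ((n : ℝ) + 1)) atTop (𝓝 (1 - 0)) :=
      tendsto_const_nhds.sub tendsto_one_div_add_atTop_nhds_zero_nat
    rw [sub_zero] at h1
    exact h1.comp hv
  refine tendsto_of_tendsto_of_tendsto_of_le_of_le' hlow tendsto_const_nhds ?_ ?_
  · filter_upwards [hvb] with N hN
    have hTup := Pool.Agent.H859.AL.ncard_tuples
      (fun j : Fin (v N) => Surfaces (g j) m (f₁ j) N) fun j => hfinF j N
    have hTfin : (Tuples (v N) g m f₁ N).Finite := hTup.1
    have hTpos : 0 < (Tuples (v N) g m f₁ N).ncard := by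
      have e : (Tuples (v N) g m f₁ N).ncard = ∏ j : Fin (v N), (Surfaces (g j) m (f₁ j) N).ncard :=
        hTup.2
      rw [e]
      exact Finset.prod_pos fun j _ => (hN j).1
    have hTpos' : (0 : ℝ) < ((Tuples (v N) g m f₁ N).ncard : ℝ) := by exact_mod_cast hTpos
    have hb := tuples_bad (fun j : Fin (v N) => Surfaces (g j) m (f₁ j) N) (fun j => hfinF j N)
      (fun _ f => HasGoodTwist K (L (v N)) (w N) f)
      (fun j => |C j| * (1 - 1 / (32 * (g j : ℝ))) ^ (t (v N))) fun j => (hN j).2
    have hb' : (({f : Fin (v N) → k[X][X] | (∀ j : Fin (v N), f j ∈ Surfaces (g j) m (f₁ j) N) ∧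
        ¬ ∀ j, HasGoodTwist K (L (v N)) (w N) (f j)}.ncard : ℕ) : ℝ) ≤
        1 / ((v N : ℝ) + 1) * ((Tuples (v N) g m f₁ N).ncard : ℝ) :=
      hb.trans (mul_le_mul_of_nonneg_right (ht (v N)) (Nat.cast_nonneg _))
    rw [le_div_iff₀ hTpos']
    have hsub : Tuples (v N) g m f₁ N ⊆
        {f ∈ Tuples (v N) g m f₁ N | ∀ j, HasGoodTwist K (L (v N)) (w N) (f j)} ∪
        {f : Fin (v N) → k[X][X] | (∀ j : Fin (v N), f j ∈ Surfaces (g j) m (f₁ j) N) ∧
        ¬ ∀ j, HasGoodTwist K (L (v N)) (w N) (f j)} := by
      intro f hf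
      by_cases h : ∀ j, HasGoodTwist K (L (v N)) (w N) (f j)
      · exact Or.inl ⟨hf, h⟩
      · exact Or.inr ⟨hf, h⟩
    have h1 := Set.ncard_le_ncard hsub ((hTfin.subset fun f hf => hf.1).union
      (hTfin.subset fun f hf => hf.1))
    have h2 := Set.ncard_union_le
      {f ∈ Tuples (v N) g m f₁ N | ∀ j, HasGoodTwist K (L (v N)) (w N) (f j)}
      {f : Fin (v N) → k[X][X] | (∀ j : Fin (v N), f j ∈ Surfaces (g j) m (f₁ j) N) ∧
        ¬ ∀ j, HasGoodTwist K (L (v N)) (w N) (f j)}
    have h3 : ((Tuples (v N) g m f₁ N).ncard : ℝ) ≤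
        (({f ∈ Tuples (v N) g m f₁ N | ∀ j, HasGoodTwist K (L (v N)) (w N) (f j)}.ncard : ℕ) : ℝ) +
        (({f : Fin (v N) → k[X][X] | (∀ j : Fin (v N), f j ∈ Surfaces (g j) m (f₁ j) N) ∧
        ¬ ∀ j, HasGoodTwist K (L (v N)) (w N) (f j)}.ncard : ℕ) : ℝ) := by
      exact_mod_cast h1.trans h2
    linarith
  · filter_upwards [hvb] with N hN
    have hTup := Pool.Agent.H859.AL.ncard_tuples
      (fun j : Fin (v N) => Surfaces (g j) m (f₁ j) N) fun j => hfinF j N
    have hTfin : (Tuples (v N) g m f₁ N).Finite := hTup.1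
    refine div_le_one_of_le₀ ?_ (Nat.cast_nonneg _)
    have h := Set.ncard_le_ncard
      (s := {f ∈ Tuples (v N) g m f₁ N | ∀ j, HasGoodTwist K (L (v N)) (w N) (f j)})
      (t := Tuples (v N) g m f₁ N) (fun f hf => hf.1) hTfin
    exact_mod_cast h

end Pool.Agent.Results.MP_17a657_ag.AllDimensionsAtOnce
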