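import Pool.Agent.H850.RG.Aug
import Pool.Agent.H850.LA.Rnd

/-!
# MP_17a657_ag: the Tate conjecture over large fields

`F` is a field with separable closure `Ω` (or any Galois extension `Ω`), and `K = Ω(σ, τ)` is the
fixed field of two random elements of `Gal(Ω/F)` (Haar measure). We prove that, for almost all
pairs and simultaneously for countably many varieties over `F` and primes `ℓ` with semisimple
cohomology, the Galois representation of `K` and of all its finite extensions generates the same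
algebra as that of `F`, so that the Tate conjecture over any one finite extension of `K` is
equivalent to the Tate conjecture over all finite extensions of `F`. Moreover the Lie algebra of the
image of the Galois group of these fields contains the derived algebra of the `ℓ`-adic Lie algebra
over `F`, and the image is OPEN in the image of the Galois group of `F` if the latter is perfect.
-/

set_option autoImplicit false
set_option linter.unusedSectionVars false

namespace Pool.Agent.Results.MP_17a657_ag.LargeFields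

open MeasureTheory Topology Filter

/-- A matrix over `ℤ_ℓ` viewed over `ℚ_ℓ`. -/
noncomputable def rat {ℓ : ℕ} [Fact ℓ.Prime] {N : ℕ} (g : GL (Fin N) ℤ_[ℓ]) :
    Matrix (Fin N) (Fin N) ℚ_[ℓ] :=
  (g : Matrix (Fin N) (Fin N) ℤ_[ℓ]).map (algebraMap ℤ_[ℓ] ℚ_[ℓ])

/-- A set of matrices acts semisimply: every stable subspace has a stable complement. -/
def Semisimple {ℓ : ℕ} [Fact ℓ.Prime] {N : ℕ} (S : Set (Matrix (Fin N) (Fin N) ℚ_[ℓ])) : Prop :=
  ∀ W : Submodule ℚ_[ℓ] (Fin N → ℚ_[ℓ]), (∀ A ∈ S, ∀ x ∈ W, A.mulVec x ∈ W) →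
    ∃ W' : Submodule ℚ_[ℓ] (Fin N → ℚ_[ℓ]), (∀ A ∈ S, ∀ x ∈ W', A.mulVec x ∈ W') ∧ IsCompl W W'

/-- The `ℓ`-adic cycle class map of a smooth projective variety `X` over `F` in one codimension:
the continuous action `ρ` of the Galois group on a lattice `ℤ_ℓ ^ N` of the twisted cohomology
`V = ℚ_ℓ ^ N` (for divisors `V = H²(X, ℚ_ℓ(1))`), the group `C` of cycle classes over the separable
closure (for divisors the Neron-Severi group), on which Galois acts with open stabilisers, and the
equivariant cycle class map. -/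
structure CycleMap (F Ω : Type) [Field F] [Field Ω] [Algebra F Ω] where
  ℓ : ℕ
  [prime : Fact ℓ.Prime]
  N : ℕ
  ρ : Gal(Ω/F) →* GL (Fin N) ℤ_[ℓ]
  cont : Continuous fun σ => (ρ σ : Matrix (Fin N) (Fin N) ℤ_[ℓ])
  C : Type
  [group : AddCommGroup C]
  [galois : DistribMulAction Gal(Ω/F) C]
  isOpen_stabilizer : ∀ c : C, IsOpen (MulAction.stabilizer Gal(Ω/F) c : Set Gal(Ω/F))
  cl : C →+ (Fin N → ℚ_[ℓ])
  equivariant : ∀ (σ : Gal(Ω/F)) (c : C), (rat (ρ σ)).mulVec (cl c) = cl (σ • c)

attribute [instance] CycleMap.prime CycleMap.group CycleMap.galois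

variable {F Ω : Type} [Field F] [Field Ω] [Algebra F Ω]

namespace CycleMap

variable (X : CycleMap F Ω)

/-- The cohomology group `V`. -/
abbrev V : Type := Fin X.N → ℚ_[X.ℓ]

/-- The action of a Galois element on `V`. -/
noncomputable def act (σ : Gal(Ω/F)) (v : X.V) : X.V := (rat (X.ρ σ)).mulVec v

/-- The span of all cycle classes (over the separable closure). -/
noncomputable def Alg : Submodule ℚ_[X.ℓ] X.V := Submodule.span ℚ_[X.ℓ] (Set.range X.cl)

/-- The span of the classes of the cycles fixed by the Galois group of `L`. -/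
noncomputable def AlgOver (L : IntermediateField F Ω) : Submodule ℚ_[X.ℓ] X.V :=
  Submodule.span ℚ_[X.ℓ] (X.cl '' {c | ∀ σ ∈ L.fixingSubgroup, σ • c = c})

/-- The class `v` is fixed by the Galois group of `L`. -/
def FixedOver (L : IntermediateField F Ω) (v : X.V) : Prop :=
  ∀ σ ∈ L.fixingSubgroup, X.act σ v = v

/-- The Tate conjecture over `L`: the classes fixed by the Galois group of `L` are
`ℚ_ℓ`-combinations of classes of cycles fixed by the Galois group of `L`. -/
def TateOver (L : IntermediateField F Ω) : Prop :=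
  ∀ v, X.FixedOver L v → v ∈ X.AlgOver L

/-- The Tate conjecture over all finite extensions of `F`. -/
def Tate : Prop :=
  ∀ F' : IntermediateField F Ω, FiniteDimensional F F' → X.TateOver F'

/-- `V` is a semisimple representation of the Galois group of `L`. -/
def SemisimpleOver (L : IntermediateField F Ω) : Prop :=
  Semisimple ((fun σ => rat (X.ρ σ)) '' (L.fixingSubgroup : Set Gal(Ω/F)))

/-- The Galois element `σ` maps the subset `S` of `V` to itself. -/
def Preserves (σ : Gal(Ω/F)) (S : Set X.V) : Prop := ∀ v ∈ S, X.act σ v ∈ S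

/-- The subspace `W` is stable under the Galois group of `L`. -/
def StableOver (L : IntermediateField F Ω) (W : Submodule ℚ_[X.ℓ] X.V) : Prop :=
  ∀ σ ∈ L.fixingSubgroup, X.Preserves σ W

/-- The map `φ` from `V` to `V` commutes with the Galois element `σ`. -/
def Commutes (σ : Gal(Ω/F)) (φ : X.V → X.V) : Prop := ∀ v, φ (X.act σ v) = X.act σ (φ v)

/-- The endomorphism `φ` of `V` commutes with the Galois group of `L`. -/
def EndOver (L : IntermediateField F Ω) (φ : Module.End ℚ_[X.ℓ] X.V) : Prop :=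
  ∀ σ ∈ L.fixingSubgroup, X.Commutes σ φ

/-- The quotient `V / Alg` (for divisors `V_ℓ(Br)` of the geometric Brauer group) has no nonzero
invariants under the Galois group of `L`. -/
def NoTranscendental (L : IntermediateField F Ω) : Prop :=
  ∀ v : X.V, (∀ σ ∈ L.fixingSubgroup, X.act σ v - v ∈ X.Alg) → v ∈ X.Alg

/-- The value of a polynomial at the matrix of a Galois element. -/
noncomputable def value (P : MvPolynomial (Fin X.N × Fin X.N) ℚ_[X.ℓ]) (σ : Gal(Ω/F)) :
    ℚ_[X.ℓ] := MvPolynomial.eval (fun q => rat (X.ρ σ) q.1 q.2) P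

/-- The polynomial `P` vanishes on the image of the Galois group of `L`. -/
def VanishesOver (L : IntermediateField F Ω) (P : MvPolynomial (Fin X.N × Fin X.N) ℚ_[X.ℓ]) :
    Prop := ∀ σ ∈ L.fixingSubgroup, X.value P σ = 0

/-- The `ℓ`-adic monodromy group over `F₀` is connected: every polynomial in the matrix entries that
vanishes on the image of the Galois group of some finite extension of `F` vanishes on the image of
the Galois group of `F₀`. -/
def ConnectedOver (F₀ : IntermediateField F Ω) : Prop :=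
  ∀ (P : MvPolynomial (Fin X.N × Fin X.N) ℚ_[X.ℓ]) (F' : IntermediateField F Ω),
    FiniteDimensional F F' → X.VanishesOver F' P → X.VanishesOver F₀ P

/-- The square matrices over `ℚ_ℓ`. -/
abbrev Mat : Type := Matrix (Fin X.N) (Fin X.N) ℚ_[X.ℓ]

/-- The matrix `(ρ (σ) - 1) / ℓ ^ m`. -/
noncomputable def quot (m : ℕ) (σ : Gal(Ω/F)) : X.Mat :=
  ((X.ℓ : ℚ_[X.ℓ]) ^ m)⁻¹ • (rat (X.ρ σ) - 1)

/-- The matrix `A` belongs to the Lie algebra of the image of the Galois group of `L`: it is a limit
of `(ρ (σ_m) - 1) / ℓ ^ m` with `σ_m` in this group. -/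
def InLie (L : IntermediateField F Ω) (A : X.Mat) : Prop :=
  ∃ σ : ℕ → Gal(Ω/F), (∀ m, σ m ∈ L.fixingSubgroup) ∧
    Tendsto (fun m : ℕ => X.quot m (σ m)) atTop (𝓝 A)

/-- The bracket of two matrices. -/
noncomputable def bracket (A B : X.Mat) : X.Mat := A * B - B * A

/-- The Lie algebra of the image of the Galois group of `L` contains all brackets of the Lie algebra
of the image of the Galois group of `F`. -/
def ContainsBrackets (L : IntermediateField F Ω) : Prop :=
  ∀ A B, X.InLie ⊥ A → X.InLie ⊥ B → X.InLie L (X.bracket A B)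

/-- The brackets of the elements of the Lie algebra of the image of the Galois group of `F`. -/
def brackets : Set X.Mat := {D | ∃ B C, X.InLie ⊥ B ∧ X.InLie ⊥ C ∧ D = X.bracket B C}

/-- The Lie algebra of the image of the Galois group of `F` is perfect: it is spanned by its
brackets. -/
def Perfect : Prop := ∀ A, X.InLie ⊥ A → A ∈ Submodule.span ℚ_[X.ℓ] X.brackets

/-- The image of the Galois group of `L` is open in the image of the Galois group of `F`: it contains
the image of the Galois group of a finite extension of `F`. -/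
def OpenImage (L : IntermediateField F Ω) : Prop :=
  ∃ F' : IntermediateField F Ω, FiniteDimensional F F' ∧
    ∀ σ ∈ F'.fixingSubgroup, ∃ τ ∈ L.fixingSubgroup, X.ρ τ = X.ρ σ

/-- The Galois representation is the same over `L` and over its subfield `F₀`, as far as
subrepresentations, endomorphisms, fixed classes, the Tate conjecture and the derived algebra of
the Lie algebra are concerned:
(1) `V` is semisimple over `L`;
(2) the subspaces of `V` stable over `L` are those stable over `F₀`;
(3) the endomorphisms of `V` over `L` are those over `F₀`;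
(4) the classes fixed over `L` are those fixed over some finite extension of `F`;
(5) the Tate conjecture over `L` holds if and only if it holds over all finite extensions of `F`;
(6) this holds if and only if `V / Alg` has no invariants over `L`;
(7) the Lie algebra of the image of the Galois group of `L` contains all brackets of the Lie algebra
of the image of the Galois group of `F`;
(8) if the latter Lie algebra is perfect, the image of the Galois group of `L` is open in the image
of the Galois group of `F`. -/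
def Same (F₀ L : IntermediateField F Ω) : Prop :=
  X.SemisimpleOver L ∧
  (∀ W, X.StableOver L W ↔ X.StableOver F₀ W) ∧
  (∀ φ, X.EndOver L φ ↔ X.EndOver F₀ φ) ∧
  (∀ v, X.FixedOver L v ↔
    ∃ F' : IntermediateField F Ω, FiniteDimensional F F' ∧ X.FixedOver F' v) ∧
  (X.TateOver L ↔ X.Tate) ∧
  (X.NoTranscendental L ↔ X.Tate) ∧
  X.ContainsBrackets L ∧
  (X.Perfect → X.OpenImage L)

end CycleMap

/-- `Ω(σ, τ)`: the fixed field of `σ` and `τ`. -/
noncomputable def fixedBy (σ τ : Gal(Ω/F)) : IntermediateField F Ω :=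
  IntermediateField.fixedField (Subgroup.closure {σ, τ})

section Proofs

variable [IsGalois F Ω]

open Pool.Agent.H850.TF Pool.Agent.H850.RG

theorem rat_eq (X : CycleMap F Ω) (σ : Gal(Ω/F)) :
    rat (X.ρ σ) = Pool.Agent.H850.TF.rat X.ρ σ := rfl

theorem exists_field {U : Subgroup Gal(Ω/F)} (hU : IsOpen (U : Set Gal(Ω/F))) :
    ∃ L : IntermediateField F Ω, FiniteDimensional F L ∧
      L.fixingSubgroup ≤ U := by
  have h1 : (U : Set Gal(Ω/F)) ∈ 𝓝 (1 : Gal(Ω/F)) := hU.mem_nhds U.one_mem
  rw [krullTopology_mem_nhds_one_iff] at h1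
  exact h1

theorem semisimple_iff (X : CycleMap F Ω) (L : IntermediateField F Ω) :
    X.SemisimpleOver L ↔ SS (stdr X.ρ) (L.fixingSubgroup : Set Gal(Ω/F)) := by
  have h1 : ∀ W : Submodule ℚ_[X.ℓ] X.V,
      (∀ A ∈ (fun σ => rat (X.ρ σ)) '' (L.fixingSubgroup : Set Gal(Ω/F)), ∀ x ∈ W,
        A.mulVec x ∈ W) ↔ ∀ σ ∈ (L.fixingSubgroup : Set Gal(Ω/F)), ∀ x ∈ W,
          stdr X.ρ σ x ∈ W := by
    intro W
    constructor
    · intro h σ hσ x hx
      exact h _ ⟨σ, hσ, rfl⟩ x hx
    · rintro h _ ⟨σ, hσ, rfl⟩ x hx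
      exact h σ hσ x hx
  unfold CycleMap.SemisimpleOver Semisimple SS
  simp only [h1]

theorem semisimple_bot (X : CycleMap F Ω) :
    X.SemisimpleOver ⊥ ↔ SS (stdr X.ρ) Set.univ := by
  rw [semisimple_iff, IntermediateField.fixingSubgroup_bot, Subgroup.coe_top]

/-- descent of combinations of cycle classes -/
theorem descent (X : CycleMap F Ω) {v : X.V} (hv : v ∈ X.Alg)
    (L : IntermediateField F Ω) (hL : X.FixedOver L v) :
    v ∈ X.AlgOver L := by
  classical
  change v ∈ Submodule.span ℚ_[X.ℓ] (X.cl '' {c | ∀ σ ∈ L.fixingSubgroup, σ • c = c})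
  set H := L.fixingSubgroup with hH
  rw [CycleMap.Alg, Finsupp.mem_span_range_iff_exists_finsupp] at hv
  obtain ⟨c, hc⟩ := hv
  set U : Subgroup Gal(Ω/F) := ⨅ e : c.support, MulAction.stabilizer Gal(Ω/F) (e : X.C) with hU
  have hUopen : IsOpen (U : Set Gal(Ω/F)) := by
    rw [hU, Subgroup.coe_iInf]
    exact isOpen_iInter_of_finite fun e => X.isOpen_stabilizer e
  have hUfix : ∀ e ∈ c.support, ∀ u ∈ U, u • e = e := by
    intro e he u hu
    rw [hU, Subgroup.mem_iInf] at hu
    exact hu ⟨e, he⟩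
  have hfin : Finite (Gal(Ω/F) ⧸ U) := Subgroup.quotient_finite_of_isOpen U hUopen
  have hidx : U.FiniteIndex := Subgroup.finiteIndex_of_finite_quotient
  have hfinQ : Finite (H ⧸ U.subgroupOf H) := inferInstance
  have : Fintype (H ⧸ U.subgroupOf H) := Fintype.ofFinite _
  set n : ℕ := Fintype.card (H ⧸ U.subgroupOf H) with hn
  have hn0 : n ≠ 0 := Fintype.card_ne_zero
  let av : X.C → X.C := fun e => ∑ q : H ⧸ U.subgroupOf H, (q.out : Gal(Ω/F)) • e
  have hav : ∀ e ∈ c.support, ∀ σ ∈ H, σ • av e = av e := by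
    intro e he σ hσ
    change σ • (∑ q : H ⧸ U.subgroupOf H, (q.out : Gal(Ω/F)) • e) =
      ∑ q : H ⧸ U.subgroupOf H, (q.out : Gal(Ω/F)) • e
    rw [Finset.smul_sum]
    have h2 : ∀ q : H ⧸ U.subgroupOf H, σ • (q.out : Gal(Ω/F)) • e =
        (((⟨σ, hσ⟩ : H) • q).out : Gal(Ω/F)) • e := by
      intro q
      have h3 : ((⟨σ, hσ⟩ : H) * q.out : H)⁻¹ * ((⟨σ, hσ⟩ : H) • q).out ∈ U.subgroupOf H := by
        rw [← QuotientGroup.eq, QuotientGroup.out_eq']
        have h4 : (q : H ⧸ U.subgroupOf H) = QuotientGroup.mk q.out := (QuotientGroup.out_eq' q).symm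
        conv_rhs => rw [h4]
        rfl
      have h5 := hUfix e he _ (Subgroup.mem_subgroupOf.1 h3)
      have h6 : (((⟨σ, hσ⟩ : H) • q).out : Gal(Ω/F)) = (σ * (q.out : Gal(Ω/F))) *
          ((((⟨σ, hσ⟩ : H) * q.out : H)⁻¹ * ((⟨σ, hσ⟩ : H) • q).out : H) : Gal(Ω/F)) := by
        push_cast
        group
      rw [h6, mul_smul, h5, mul_smul]
    simp_rw [h2]
    exact Equiv.sum_comp (MulAction.toPerm (⟨σ, hσ⟩ : H)) fun q : H ⧸ U.subgroupOf H =>
      (q.out : Gal(Ω/F)) • e
  have hconj : ∀ σ ∈ H, v = c.sum fun e a => a • X.cl (σ • e) := by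
    intro σ hσ
    have h1 : (rat (X.ρ σ)).mulVec v = c.sum fun e a => a • X.cl (σ • e) := by
      have h2 : (rat (X.ρ σ)).mulVec v = (rat (X.ρ σ)).mulVecLin v := rfl
      rw [h2, ← hc, Finsupp.sum, map_sum, Finsupp.sum]
      refine Finset.sum_congr rfl fun e _ => ?_
      rw [map_smul, Matrix.mulVecLin_apply, X.equivariant]
    rw [← h1]
    exact (hL σ hσ).symm
  have hn0' : (n : ℚ_[X.ℓ]) ≠ 0 := by exact_mod_cast hn0
  have hX2 : v = (n : ℚ_[X.ℓ])⁻¹ • ∑ q : H ⧸ U.subgroupOf H, v := by
    rw [Finset.sum_const, Finset.card_univ, ← hn, ← Nat.cast_smul_eq_nsmul ℚ_[X.ℓ], smul_smul,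
      inv_mul_cancel₀ hn0', one_smul]
  have hX3 : v = ∑ e ∈ c.support, ((n : ℚ_[X.ℓ])⁻¹ * c e) • X.cl (av e) := by
    rw [hX2]
    have h4 : ∑ q : H ⧸ U.subgroupOf H, v =
        ∑ q : H ⧸ U.subgroupOf H, c.sum fun e a => a • X.cl ((q.out : Gal(Ω/F)) • e) :=
      Finset.sum_congr rfl fun q _ => hconj _ q.out.2
    rw [h4]
    simp only [Finsupp.sum]
    rw [Finset.sum_comm, Finset.smul_sum]
    refine Finset.sum_congr rfl fun e _ => ?_
    rw [← Finset.smul_sum, smul_smul, ← map_sum]
  rw [hX3]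
  refine Submodule.sum_mem _ fun e he => Submodule.smul_mem _ _ (Submodule.subset_span ?_)
  exact ⟨av e, hav e he, rfl⟩

theorem stable_alg (X : CycleMap F Ω) (σ : Gal(Ω/F)) {v : X.V} (hv : v ∈ X.Alg) :
    X.act σ v ∈ X.Alg := by
  change (rat (X.ρ σ)).mulVecLin v ∈ X.Alg
  unfold CycleMap.Alg at hv ⊢
  induction hv using Submodule.span_induction with
  | mem x hx =>
    obtain ⟨c, rfl⟩ := hx
    rw [Matrix.mulVecLin_apply, X.equivariant]
    exact Submodule.subset_span ⟨_, rfl⟩
  | zero => rw [map_zero]; exact Submodule.zero_mem _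
  | add x y _ _ h h' => rw [map_add]; exact Submodule.add_mem _ h h'
  | smul a x _ h => rw [map_smul]; exact Submodule.smul_mem _ _ h

theorem algOver_le (X : CycleMap F Ω) (L : IntermediateField F Ω) : X.AlgOver L ≤ X.Alg :=
  Submodule.span_mono (Set.image_subset_range _ _)

theorem act_add (X : CycleMap F Ω) (σ : Gal(Ω/F)) (a b : X.V) :
    X.act σ (a + b) = X.act σ a + X.act σ b := Matrix.mulVec_add _ _ _

theorem noTrans_iff (X : CycleMap F Ω) (hss : X.SemisimpleOver ⊥)
    (L : IntermediateField F Ω) : X.TateOver L ↔ X.NoTranscendental L := by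
  constructor
  · intro hT v hv
    obtain ⟨W', hW', hc⟩ := (semisimple_bot X).1 hss X.Alg fun σ _ x hx => stable_alg X σ hx
    have h1 : v ∈ X.Alg ⊔ W' := by rw [hc.sup_eq_top]; trivial
    obtain ⟨a, ha, w, hw, rfl⟩ := Submodule.mem_sup.1 h1
    refine Submodule.add_mem _ ha ?_
    have h2 : X.FixedOver L w := by
      intro σ hσ
      have h3 := hv σ hσ
      have h4 : X.act σ (a + w) - (a + w) = (X.act σ a - a) + (X.act σ w - w) := by
        rw [act_add]
        abel
      rw [h4] at h3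
      have h5 : X.act σ w - w ∈ X.Alg := by
        have h6 := Submodule.sub_mem _ h3 (Submodule.sub_mem _ (stable_alg X σ ha) ha)
        rwa [add_sub_cancel_left] at h6
      have h7 : X.act σ w - w ∈ W' := Submodule.sub_mem _ (hW' σ trivial w hw) hw
      exact sub_eq_zero.1 ((Submodule.disjoint_def.1 hc.disjoint) _ h5 h7)
    exact algOver_le X L (hT w h2)
  · intro hN v hv
    refine descent X (hN v fun σ hσ => ?_) L hv
    rw [hv σ hσ, sub_self]
    exact Submodule.zero_mem _


theorem exists_normal_field {U : Subgroup Gal(Ω/F)} (hU : IsOpen (U : Set Gal(Ω/F))) :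
    ∃ L : IntermediateField F Ω, FiniteDimensional F L ∧ Normal F L ∧
      L.fixingSubgroup ≤ U := by
  have h1 : (U : Set Gal(Ω/F)) ∈ 𝓝 (1 : Gal(Ω/F)) := hU.mem_nhds U.one_mem
  rw [krullTopology_mem_nhds_one_iff_of_normal] at h1
  exact h1

theorem mem_fixedBy (σ τ : Gal(Ω/F)) :
    σ ∈ (fixedBy σ τ).fixingSubgroup ∧ τ ∈ (fixedBy σ τ).fixingSubgroup := by
  have h1 : Subgroup.closure {σ, τ} ≤ (fixedBy σ τ).fixingSubgroup :=
    (IntermediateField.le_iff_le _ _).1 le_rfl
  exact ⟨h1 (Subgroup.subset_closure (Set.mem_insert _ _)),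
    h1 (Subgroup.subset_closure (Set.mem_insert_of_mem _ rfl))⟩

theorem le_fixedBy {σ τ : Gal(Ω/F)} {L : IntermediateField F Ω} (h : L ≤ fixedBy σ τ) :
    σ ∈ L.fixingSubgroup ∧ τ ∈ L.fixingSubgroup := by
  have h1 : (fixedBy σ τ).fixingSubgroup ≤ L.fixingSubgroup :=
    IntermediateField.fixingSubgroup_le h
  exact ⟨h1 (mem_fixedBy σ τ).1, h1 (mem_fixedBy σ τ).2⟩

theorem connectedOver_iff (X : CycleMap F Ω) (F₀ : IntermediateField F Ω) :
    X.ConnectedOver F₀ ↔ F₀.fixingSubgroup ≤ conn X.ρ := by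
  constructor
  · intro h
    apply ConnOn.le
    refine connOn_of_poly X.ρ _ fun P V hV hPV u hu => ?_
    obtain ⟨L, hL, hLV⟩ := exists_field hV
    exact h P L hL (fun σ hσ => hPV σ (hLV hσ)) u hu
  · intro h P F' hF' hP σ hσ
    exact connOn_conn X.ρ _ (eval_mem X.ρ P) F'.fixingSubgroup F'.fixingSubgroup_isOpen hP σ
      (h hσ)

theorem inLie_iff (X : CycleMap F Ω) (L : IntermediateField F Ω)
    (A : Matrix (Fin X.N) (Fin X.N) ℚ_[X.ℓ]) :
    X.InLie L A ↔ A ∈ Pool.Agent.H850.LA.tanH X.ρ L.fixingSubgroup :=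
  (Pool.Agent.H850.LA.mem_tanH X.ρ _ A).symm

theorem inLie_bot_iff (X : CycleMap F Ω) (A : Matrix (Fin X.N) (Fin X.N) ℚ_[X.ℓ]) :
    X.InLie ⊥ A ↔ A ∈ Pool.Agent.H850.LA.tanH X.ρ (⊤ : Subgroup Gal(Ω/F)) := by
  rw [inLie_iff, IntermediateField.fixingSubgroup_bot]

/-- the image is open if the Lie algebra is perfect -/
theorem open_image (X : CycleMap F Ω) (L : IntermediateField F Ω)
    (hbr : X.ContainsBrackets L) (hP : X.Perfect) :
    X.OpenImage L := by
  obtain ⟨V, hV, h1⟩ := Pool.Agent.H850.LA.open_of_brackets (ρ := X.ρ) X.cont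
    (H := L.fixingSubgroup)
    (fun A hA B hB => (inLie_iff X L _).1
      (hbr A B ((inLie_bot_iff X A).2 hA) ((inLie_bot_iff X B).2 hB)))
    (fun A hA => by
      have h2 := hP A ((inLie_bot_iff X A).2 hA)
      unfold Pool.Agent.H850.LA.brk
      refine Submodule.span_mono ?_ h2
      rintro _ ⟨B, C, hB, hC, rfl⟩
      exact ⟨B, (inLie_bot_iff X B).1 hB, C, (inLie_bot_iff X C).1 hC, rfl⟩)
  obtain ⟨F', hF', hle⟩ := exists_field hV
  have hcont : Continuous fun σ : Gal(Ω/F) => Pool.Agent.H850.TF.rat X.ρ σ :=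
    (Pool.Agent.H850.TF.continuous_toQ).comp X.cont
  have hcomp : IsCompact (Pool.Agent.H850.TF.rat X.ρ ''
      (L.fixingSubgroup : Set Gal(Ω/F))) :=
    ((InfiniteGalois.fixingSubgroup_isClosed L).isCompact).image hcont
  refine ⟨F', hF', fun σ hσ => ?_⟩
  have h3 := h1 σ (hle hσ)
  rw [hcomp.isClosed.closure_eq] at h3
  obtain ⟨τ, hτ, hτσ⟩ := h3
  refine ⟨τ, hτ, ?_⟩
  apply Units.ext
  have h4 : Function.Injective (fun A : Matrix (Fin X.N) (Fin X.N) ℤ_[X.ℓ] =>
      A.map (algebraMap ℤ_[X.ℓ] ℚ_[X.ℓ])) :=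
    Matrix.map_injective (IsFractionRing.injective ℤ_[X.ℓ] ℚ_[X.ℓ])
  exact h4 hτσ

/-- the representation over `L` is the same as over `F₀` if it generates the same algebra -/
theorem same_of_adjoin (X : CycleMap F Ω) (hss : X.SemisimpleOver ⊥)
    (F₀ L : IntermediateField F Ω) (hle : F₀ ≤ L) (hconn : X.ConnectedOver F₀)
    (hbr : X.ContainsBrackets L)
    (h : ∀ u ∈ conn X.ρ, Pool.Agent.H850.TF.rat X.ρ u ∈
      Algebra.adjoin ℚ_[X.ℓ] (Pool.Agent.H850.TF.rat X.ρ ''
        (L.fixingSubgroup : Set Gal(Ω/F))))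
    (hfix : ∀ v, X.FixedOver L v → ∀ u ∈ conn X.ρ, X.act u v = v) : X.Same F₀ L := by
  rw [connectedOver_iff] at hconn
  have hGle : L.fixingSubgroup ≤ F₀.fixingSubgroup := IntermediateField.fixingSubgroup_le hle
  have hstc : ∀ W, X.StableOver L W → ∀ u ∈ conn X.ρ, ∀ v ∈ W, X.act u v ∈ W := by
    intro W hW u hu v hv
    refine stable_adjoin (S := Pool.Agent.H850.TF.rat X.ρ ''
      (L.fixingSubgroup : Set Gal(Ω/F))) ?_ _ (h u hu) v hv
    rintro _ ⟨σ, hσ, rfl⟩ x hx
    exact hW σ hσ x hx
  have hss' := (semisimple_bot X).1 hss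
  have hTC : ∀ v, X.FixedOver L v ↔
      ∃ F' : IntermediateField F Ω, FiniteDimensional F F' ∧ X.FixedOver F' v := by
    intro v
    constructor
    · intro hv
      obtain ⟨F', hF', hle'⟩ := exists_field (isOpen_conn X.ρ)
      exact ⟨F', hF', fun σ hσ => hfix v hv σ (hle' hσ)⟩
    · rintro ⟨F', hF', hv⟩ σ hσ
      exact conn_open X.ρ F'.fixingSubgroup_isOpen (hconn (hGle hσ)) hv
  have hT : X.TateOver L ↔ X.Tate := by
    constructor
    · intro hT F' hF' v hv
      exact descent X (algOver_le X L (hT v ((hTC v).2 ⟨F', hF', hv⟩))) F' hv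
    · intro hT v hv
      obtain ⟨F', hF', hv'⟩ := (hTC v).1 hv
      exact descent X (algOver_le X F' (hT F' hF' v hv')) L hv
  refine ⟨?_, ?_, ?_, hTC, hT, (noTrans_iff X hss L).symm.trans hT, hbr, open_image X L hbr⟩
  · rw [semisimple_iff]
    intro W hW
    obtain ⟨W', hW', hc⟩ := hss'.clifford (conn X.ρ) W
      (fun s hs x hx => hstc W hW s hs x hx)
    exact ⟨W', fun s hs x hx => hW' s (hconn (hGle hs)) x hx, hc⟩
  · intro W
    constructor
    · intro hW u hu v hv
      exact hstc W hW u (hconn hu) v hv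
    · intro hW σ hσ v hv
      exact hW σ (hGle hσ) v hv
  · intro φ
    constructor
    · intro hφ u hu v
      have h1 : Commute (Pool.Agent.H850.TF.rat X.ρ u) (LinearMap.toMatrix' φ) := by
        refine commute_of_adjoin (S := Pool.Agent.H850.TF.rat X.ρ ''
          (L.fixingSubgroup : Set Gal(Ω/F))) ?_ (h u (hconn hu))
        rintro _ ⟨σ, hσ, rfl⟩
        apply Matrix.toLin'.injective
        rw [Matrix.toLin'_mul, Matrix.toLin'_mul, Matrix.toLin'_toMatrix']
        apply LinearMap.ext
        intro x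
        exact (hφ σ hσ x).symm
      have h2 := congrArg Matrix.toLin' h1.eq
      rw [Matrix.toLin'_mul, Matrix.toLin'_mul, Matrix.toLin'_toMatrix'] at h2
      exact (LinearMap.congr_fun h2 v).symm
    · intro hφ σ hσ v
      exact hφ σ (hGle hσ) v

end Proofs

/-- **The Tate conjecture over large fields.** Let `F` be a field and `X i` countably many cycle
class maps of varieties over `F`, for arbitrary primes, with semisimple cohomology. For almost all
pairs `(σ, τ)` in the absolute Galois group of `F` and all `i`: if `F₀` is a field fixed by `σ` and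
`τ` over which the monodromy group of `X i` is connected (there is such a finite extension `F₀` of
`F`), then over every finite extension `L = K F'` of the fixed field `K` of `σ` and `τ`, the
representation is semisimple, has the same subrepresentations and endomorphisms as over `F₀`, and
the Tate conjecture over `L` is equivalent to the Tate conjecture over all finite extensions of `F`,
and to the vanishing of the invariants of `V / Alg` over `L`; the Lie algebra of the image of the
Galois group of `L` contains all brackets of the Lie algebra of the image of the Galois group of `F`,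
and the image of the Galois group of `L` is open in that of `F` if this Lie algebra is perfect. -/
theorem result [IsGalois F Ω] [MeasurableSpace Gal(Ω/F)] [BorelSpace Gal(Ω/F)]
    (μ : Measure Gal(Ω/F)) [μ.IsHaarMeasure] {ι : Type} [Countable ι] (X : ι → CycleMap F Ω)
    (hss : ∀ i, (X i).SemisimpleOver ⊥) :
    (∀ i, ∃ F₀ : IntermediateField F Ω, FiniteDimensional F F₀ ∧ (X i).ConnectedOver F₀) ∧
    ∀ᵐ σ ∂μ, ∀ᵐ τ ∂μ, ∀ i, ∀ F₀ : IntermediateField F Ω,
      (X i).ConnectedOver F₀ → F₀ ≤ fixedBy σ τ →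
        ∀ F' : IntermediateField F Ω, FiniteDimensional F F' →
          (X i).Same F₀ (fixedBy σ τ ⊔ F') := by
  constructor
  · intro i
    obtain ⟨F₀, hF₀, hle⟩ := exists_field (Pool.Agent.H850.RG.isOpen_conn (X i).ρ)
    exact ⟨F₀, hF₀, (connectedOver_iff (X i) F₀).2 hle⟩
  have hCR : ∀ i, Pool.Agent.H850.TF.CR (Set.range (Pool.Agent.H850.TF.rat (X i).ρ)) := by
    intro i W hW
    obtain ⟨W', hW', hc⟩ := hss i W (by
      rintro _ ⟨σ, _, rfl⟩ x hx
      exact hW _ ⟨σ, rfl⟩ x hx)
    refine ⟨W', ?_, hc⟩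
    rintro _ ⟨σ, rfl⟩ x hx
    refine hW' _ ⟨σ, ?_, rfl⟩ x hx
    rw [IntermediateField.fixingSubgroup_bot]
    trivial
  have h1 : ∀ᵐ σ ∂μ, ∀ i, _ := ae_all_iff.2 fun i =>
    Pool.Agent.H850.RG.ae_pairs μ (X i).cont (hCR i)
  have h1' : ∀ᵐ σ ∂μ, ∀ i, _ := ae_all_iff.2 fun i =>
    Pool.Agent.H850.LA.ae_brackets μ (X i).cont (hCR i)
  filter_upwards [h1, h1'] with σ hσ hσ'
  have h2 : ∀ᵐ τ ∂μ, ∀ i, _ := ae_all_iff.2 fun i => hσ i
  have h2' : ∀ᵐ τ ∂μ, ∀ i, _ := ae_all_iff.2 fun i => hσ' i
  filter_upwards [h2, h2'] with τ hτ hτ' i F₀ hconn hle F' hF'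
  obtain ⟨hσF, hτF⟩ := le_fixedBy hle
  have hconn' := (connectedOver_iff (X i) F₀).1 hconn
  have h3 := hτ i (hconn' hσF) (hconn' hτF)
  -- powers of the two elements over the finite extension
  have hfin : Finite (Gal(Ω/F) ⧸ F'.fixingSubgroup) :=
    Subgroup.quotient_finite_of_isOpen _ F'.fixingSubgroup_isOpen
  have hidx : F'.fixingSubgroup.index ≠ 0 := by
    have : F'.fixingSubgroup.FiniteIndex := Subgroup.finiteIndex_of_finite_quotient
    exact this.index_ne_zero
  obtain ⟨a, ha, -, hσa⟩ := Subgroup.exists_pow_mem_of_index_ne_zero hidx σ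
  obtain ⟨b, hb, -, hτb⟩ := Subgroup.exists_pow_mem_of_index_ne_zero hidx τ
  have hk : a * b ≠ 0 := Nat.mul_ne_zero (by omega) (by omega)
  have hσk : σ ^ (a * b) ∈ (fixedBy σ τ ⊔ F').fixingSubgroup := by
    rw [IntermediateField.fixingSubgroup_sup]
    refine ⟨Subgroup.pow_mem _ (mem_fixedBy σ τ).1 _, ?_⟩
    rw [pow_mul]
    exact Subgroup.pow_mem _ hσa b
  have hτk : τ ^ (a * b) ∈ (fixedBy σ τ ⊔ F').fixingSubgroup := by
    rw [IntermediateField.fixingSubgroup_sup]
    refine ⟨Subgroup.pow_mem _ (mem_fixedBy σ τ).2 _, ?_⟩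
    rw [mul_comm, pow_mul]
    exact Subgroup.pow_mem _ hτb a
  refine same_of_adjoin (X i) (hss i) F₀ _ (hle.trans le_sup_left) hconn ?_ ?_ ?_
  · intro A B hA hB
    rw [inLie_iff]
    unfold CycleMap.bracket
    refine Pool.Agent.H850.LA.tanH_mono (X i).ρ ?_ (hτ' i (hconn' hσF) (hconn' hτF) (a * b) hk A
      ((inLie_bot_iff (X i) A).1 hA) B ((inLie_bot_iff (X i) B).1 hB))
    rw [Subgroup.closure_le]
    rintro _ (rfl | rfl)
    · exact hσk
    · exact hτk
  · intro u hu
    refine Algebra.adjoin_mono ?_ (h3 (a * b) hk u hu).1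
    intro A hA
    rcases hA with rfl | hA
    · exact ⟨_, hσk, rfl⟩
    · rw [Set.mem_singleton_iff] at hA
      rw [hA]
      exact ⟨_, hτk, rfl⟩
  · intro v hv u hu
    exact (h3 (a * b) hk u hu).2 v (hv _ hσk) (hv _ hτk)

end Pool.Agent.Results.MP_17a657_ag.LargeFields
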