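import Pool.Agent.H367.OS.GTate
import Pool.Agent.H367.OS.Fld

/-!
# The Tate conjecture for divisors over finitely generated fields and single pieces of one sequence of cubics

A relation `r` of size `m` is one of the equations `x_i x_j = x_l`, `x_i + x_j = x_l`, `x_i = 1` with
`i, j, l < m`; the relations are numbered, the number of `r` is `ν(r)` (`relNum`). Let `G_m` be the
following polynomial with integral coefficients (`univG ℤ m`). There are variables `x_i` and `z_ij` for
`i, j < m`, a variable `c_r` for every relation `r`, and variables `y_{r,l}` for all relations `r` and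
`l < (m + 1) 2 ^ ν(r)`. The equations (`eqnG`) are

  `z_ij - x_i x_j`,  `c_r ^ 2 - c_r`,  `c_r ρ_r`,  `(1 - c_r) y_{r,l}`,

where `ρ_r` is the linear polynomial `z_ij - x_l`, `x_i + x_j - x_l` or `x_i - 1` of the relation.
`G_m` is the sum of the equations multiplied by further variables `t_e`, one for each equation. It has
degree three. Let `C_m` be the affine cubic hypersurface `G_m = 1` (`cubG R m` over the ring `R`); it is
smooth over the integers.

Let `M₀` be the category of motives over `ℚ` (motivated cycles), a semisimple abelian category with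
Tate twists `N ↦ N(a)`. For a separated scheme `X` of finite type over `ℚ` let `D₀.G w j X = Gr^W_w
H^j_c(X)` be the part of weight `w` of the cohomology with compact supports, a motive over `ℚ`; for
smooth projective `Y` it is `h^j(Y)` if `j = w`, and zero otherwise. Let `T N` be the statement that
for all `ℓ` and all `r` the classes in `N_ℓ(r)` which are fixed by the Galois group of `ℚ` are linear
combinations of elements of `Hom(1, N(r))`. It passes to direct factors and does not depend on Tate
twists. Motivated classes in `H^2(Y)(1)` are algebraic (Lefschetz), so `T (h^2(Y))` is the Tate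
conjecture for divisors on `Y`.

For a prime number `p` let `M p` be the category of motives over `𝔽_p` for numerical equivalence
(rational coefficients), a semisimple abelian category (Jannsen) with Tate twists. For a separated
scheme `X` of finite type over `𝔽_p` let `(D p).G w j X = Gr^W_w H^j_c(X)` be the cohomology in the
degree `j - w` of the part of weight `w` (Katz, Messing) of the weight complex of `X` (Gillet, Soulé,
Bondarko); for smooth projective `Y` it is `h^j(Y)` if `j = w`, and zero otherwise. For a motive `N`
let `rk N r` be the dimension of `Hom(1(-r), N)`, and let `mu N r` be the multiplicity of `p ^ r` as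
an eigenvalue of Frobenius on `N`. Then `rk N r ≤ mu N r`, and both numbers are additive (`IsRanks`).

For a smooth projective scheme `X` over a finitely generated field `K` let `T1 K X` be the statement of
question Q1 for `X` and all `ℓ`. The following is known (hypothesis `Describes`).

* Characteristic zero: for `X` over `K` there is a specialization `X'` over a number field with the same
  Néron-Severi group and the same `ℓ`-adic image of the Galois group (André), and `X'` may be regarded as
  a scheme over `ℚ`.
* Characteristic `p`: let `X` be the generic fibre of a smooth projective family over a finite field, and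
  let `Y` be a smooth projective alteration of a compactification of the total space, regarded as a
  scheme over `𝔽_p`. Then `T1 K X` follows from the equality `rk = mu` for `h^2(Y)`, as the invariant
  classes of `X` are restrictions of invariant classes of `Y` (Deligne). For `K = 𝔽_p` the statement
  `T1 K X` is equivalent to `rk (h^2(X)) 1 = mu (h^2(X)) 1` (Tate).

**Theorem.** Let `E_m` be the number of the equations, and for `N ∈ ℕ` let `e = (m + 1) N + E_m - 1`
(`esh m N`).

(1) Question Q1 has a positive answer for all smooth projective varieties over all finitely generated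
fields (and all `ℓ`) if and only if (a) for infinitely many `m` the statement `T` is true for the single
motives `Gr^W_{2+2e} H^{3+2e}_c(C_m)` over `ℚ`, for all `N`, and (b) for every prime number `p` and
infinitely many `m` the equality `rk = mu` (for `p ^ {1+e}`) is true for the single motives
`Gr^W_{2+2e} H^{3+2e}_c(C_m)` over `𝔽_p`, for all `N`. The two parts are the parts of question Q1 of
characteristic zero, and of characteristic `p` for each `p`.

(2) For every smooth projective scheme `X` over a finitely generated field of characteristic zero and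
all large `m` there is an `e'` such that the statement `T` for the single motive
`Gr^W_{2+2e'} H^{3+2e'}_c(C_m)` over `ℚ` implies the Tate conjecture for divisors on `X`; similarly in
characteristic `p`.

(3) The hypersurfaces `C_m` decide the statements `T`, and `rk = mu`, for the pieces of the cohomology
(`DecidesPlain`). For every affine scheme `Spec B` of finite type over the prime field and all large `m`
there is an `N` such that for `0 ≤ w ≤ 2 m + 1` and all `j` the statement for `Gr^W_w H^j_c(Spec B)` is
equivalent to the one for `Gr^W_{w+2e} H^{j+2e+1}_c(C_m)`.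

(4) `G_m` has integral coefficients and degree at most three, and `C_m` is smooth over all rings.

The hypotheses on the motives are standard (`IsMot`): exact sequences, affine bundles, disjoint unions,
the cohomology of affine spaces, the weights of `H^j_c(X)` are between `0` and `2 dim X`, monomorphisms
split, `Gr^W_w H^j_c(X)` is a direct factor of `h^w(Y)` for some smooth projective `Y` (it is a
subquotient, by the weight complex), and every smooth projective scheme has an affine bundle whose total
space is affine (Jouanolou).

Idea of the proof. The projection of `C_m` to the affine space with the coordinates `x, z, c, y` is an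
affine bundle over the complement of the zero set `W_m` of the equations. The scheme `W_m` is the
disjoint union, over all sets `s` of relations (`c_r = 1` for `r ∈ s` and `c_r = 0` for the others), of
the products `X_s × 𝔸 ^ ((m + 1) N(s))`, where `X_s` is the affine scheme defined by the relations in
`s` and `N(s) = ∑_{r ∈ s} 2 ^ ν(r)`. The numbers `N(s)` are different, and the weights of the
cohomology of `X_s` are between `0` and `2 m`. So the part of weight `w + 2 (m + 1) N(s)`,
`0 ≤ w ≤ 2 m + 1`, of the cohomology of `W_m` is the twist of the part of weight `w` of the cohomology of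
`X_s`, and it is different from the weight of the cohomology of the affine space. Every affine scheme of
finite type over a prime field is an `X_s`, for all large `m`. The pieces of the cohomology of an
arbitrary scheme are direct factors of those of a disjoint union of affine schemes.

The universal system of relations is the one of helper854 (`Pool.Agent.H854.SQ`).
-/

set_option autoImplicit false

open CategoryTheory CategoryTheory.Limits AlgebraicGeometry Pool.Agent.Y116.UV Pool.Agent.Z125.UN
  Pool.Agent.Q193.LT Pool.Agent.H854.SQ Pool.Agent.H367.OS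

universe v u



namespace Pool.Agent.Results.MP_17a657_ag.PiecesOfOneSequence

instance (p : Nat.Primes) : Fact (p : ℕ).Prime := ⟨p.2⟩

/-- The part of question Q1 of characteristic zero. -/
def CharacteristicZero (T1 : ∀ (K : Type) [Field K], Sch K → Prop) : Prop :=
  ∀ (K : Type) [Field K] [CharZero K], (⊤ : IntermediateField ℚ K).FG → ∀ X : Sch K,
    SmoothProj X → T1 K X

/-- The part of question Q1 of characteristic `p`. -/
def CharacteristicP (T1 : ∀ (K : Type) [Field K], Sch K → Prop) (p : Nat.Primes) : Prop :=
  ∀ (K : Type) [Field K] [Algebra (ZMod p) K], (⊤ : IntermediateField (ZMod p) K).FG →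
    ∀ X : Sch K, SmoothProj X → T1 K X

/-- The reduction to the prime fields. -/
structure Describes {M₀ : Type u} [Category.{v} M₀] (D₀ : Pieces ℚ M₀) (T : M₀ → Prop)
    {M : Nat.Primes → Type u} [∀ p, Category.{v} (M p)]
    (D : ∀ p : Nat.Primes, Pieces (ZMod p) (M p))
    (rk mu : ∀ p, M p → ℤ → ℕ) (T1 : ∀ (K : Type) [Field K], Sch K → Prop) : Prop where
  rational : ∀ Y : Sch ℚ, SmoothProj Y → T1 ℚ Y → T (D₀.G 2 2 Y)
  reduce : ∀ (K : Type) [Field K] [CharZero K], (⊤ : IntermediateField ℚ K).FG → ∀ X : Sch K,
    SmoothProj X → ∃ Y : Sch ℚ, SmoothProj Y ∧ (T (D₀.G 2 2 Y) → T1 K X)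
  finite : ∀ (p : Nat.Primes) (Y : Sch (ZMod p)), SmoothProj Y → T1 (ZMod p) Y →
    rk p ((D p).G 2 2 Y) 1 = mu p ((D p).G 2 2 Y) 1
  reduceP : ∀ (p : Nat.Primes) (K : Type) [Field K] [Algebra (ZMod p) K],
    (⊤ : IntermediateField (ZMod p) K).FG → ∀ X : Sch K, SmoothProj X →
      ∃ Y : Sch (ZMod p), SmoothProj Y ∧
        (rk p ((D p).G 2 2 Y) 1 = mu p ((D p).G 2 2 Y) 1 → T1 K X)

/-- A prime field is finitely generated. -/
lemma fg_self (k : Type) [Field k] : (⊤ : IntermediateField k k).FG := by
  refine ⟨∅, ?_⟩
  rw [eq_top_iff]
  intro x _
  exact (IntermediateField.adjoin k _).algebraMap_mem x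

/-- **The Tate conjecture for divisors over finitely generated fields and single pieces of one sequence
of cubic hypersurfaces over the integers.** See the explanations above. -/
theorem result {M₀ : Type u} [Category.{v} M₀] [Abelian M₀] {D₀ : Pieces ℚ M₀} (h₀ : IsMot D₀)
    {T : M₀ → Prop} (factor : FactorClosed T) (twist : ∀ (t : ℤ) (N : M₀),
      T ((D₀.tw t).obj N) ↔ T N)
    {M : Nat.Primes → Type u} [∀ p, Category.{v} (M p)] [∀ p, Abelian (M p)]
    {D : ∀ p : Nat.Primes, Pieces (ZMod p) (M p)} (h : ∀ p, IsMot (D p))
    {rk mu : ∀ p, M p → ℤ → ℕ}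
    (ranks : ∀ p, IsRanks (D p) (rk p) (mu p)) {T1 : ∀ (K : Type) [Field K], Sch K → Prop}
    (describes : Describes D₀ T D rk mu T1) :
    (CharacteristicZero T1 ↔ ∃ᶠ m in Filter.atTop, ∀ N : ℕ,
      T (D₀.G (2 + 2 * esh m N) (2 + 2 * esh m N + 1) (cubG ℚ m))) ∧
    (∀ p : Nat.Primes, CharacteristicP T1 p ↔ ∃ᶠ m in Filter.atTop, ∀ N : ℕ,
      rk p ((D p).G (2 * (1 + esh m N)) (2 * (1 + esh m N) + 1) (cubG (ZMod p) m)) (1 + esh m N) =
        mu p ((D p).G (2 * (1 + esh m N)) (2 * (1 + esh m N) + 1) (cubG (ZMod p) m))
          (1 + esh m N)) ∧
    ((∀ (K : Type) [Field K] [CharZero K], (⊤ : IntermediateField ℚ K).FG → ∀ X : Sch K,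
        SmoothProj X → ∀ᶠ m in Filter.atTop, ∃ e : ℕ,
          T (D₀.G (2 + 2 * e) (2 + 2 * e + 1) (cubG ℚ m)) → T1 K X) ∧
      ∀ (p : Nat.Primes) (K : Type) [Field K] [Algebra (ZMod p) K],
        (⊤ : IntermediateField (ZMod p) K).FG → ∀ X : Sch K, SmoothProj X →
          ∀ᶠ m in Filter.atTop, ∃ e : ℕ,
            (rk p ((D p).G (2 * (1 + e)) (2 * (1 + e) + 1) (cubG (ZMod p) m)) (1 + e) =
              mu p ((D p).G (2 * (1 + e)) (2 * (1 + e) + 1) (cubG (ZMod p) m)) (1 + e)) →
                T1 K X) ∧
    (DecidesPlain D₀ T ∧ ∀ p : Nat.Primes, DecidesPlain (D p) (TateObj (rk p) (mu p))) ∧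
    ∀ m : ℕ, (univG ℤ m).totalDegree ≤ 3 ∧
      ∀ (R : Type) [CommRing R], MvPolynomial.map (Int.castRingHom R) (univG ℤ m) = univG R m ∧
        Smooth (cubG R m).hom := by
  have hd := (decides_pieces isPrimeField_rat h₀ factor).plain twist
  have h2 := (hd.weight 2).out 1 0
  simp only [Nat.cast_ofNat] at h2
  have h3 := fun p : Nat.Primes => ranks_weight (isPrimeField_zmod (p : ℕ)) (h p) (ranks p) 1
  simp only [Nat.cast_one] at h3
  refine ⟨Iff.trans ⟨?_, ?_⟩ h2, fun p => Iff.trans ⟨?_, ?_⟩ (h3 p), ⟨?_, ?_⟩,
    ⟨hd, fun p => decides_ranks (isPrimeField_zmod _) (h p) (ranks p)⟩, cubG_facts⟩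
  · exact fun g Y hY => describes.rational Y hY (g ℚ (fg_self ℚ) Y hY)
  · intro g K _ _ hK X hX
    obtain ⟨Y, hY, h4⟩ := describes.reduce K hK X hX
    exact h4 (g Y hY)
  · intro g Y hY
    exact describes.finite p Y hY (g (ZMod p) (fg_self _) Y hY)
  · intro g K _ _ hK X hX
    obtain ⟨Y, hY, h4⟩ := describes.reduceP p K hK X hX
    exact h4 (g Y hY)
  · intro K _ _ hK X hX
    obtain ⟨Y, hY, h4⟩ := describes.reduce K hK X hX
    obtain ⟨m₀, hm⟩ := hd.proj Y hY 2
    filter_upwards [Filter.eventually_ge_atTop m₀] with m hm1
    obtain ⟨e, he⟩ := hm m hm1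
    exact ⟨e, fun h5 => h4 ((he 2 le_rfl).mp h5)⟩
  · intro p K _ _ hK X hX
    obtain ⟨Y, hY, h4⟩ := describes.reduceP p K hK X hX
    have h5 := ranks_proj (isPrimeField_zmod (p : ℕ)) (h p) (ranks p) Y hY 1
    rw [Nat.cast_one] at h5
    exact h5.mono fun m ⟨e, he⟩ => ⟨e, fun h6 => h4 (he.mp h6)⟩

end Pool.Agent.Results.MP_17a657_ag.PiecesOfOneSequence
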