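import Pool.Agent.H850.RG.Ae
import Pool.Agent.H850.LA.Nrm

/-!
# MP_17a657_ag: the Tate conjecture over random Galois extensions

`F` is a field with separable closure `Ω` (or any Galois extension `Ω`), `σ` a random element of
`Gal(Ω/F)` (Haar measure) and `F[σ]` the largest Galois extension of `F` inside the fixed field of
`σ` (for number fields an infinite extension). We prove that, for almost all `σ` and
simultaneously for countably many varieties over `F` and primes `ℓ`, the semisimplicity of the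
cohomology and the Tate conjecture over `F` are equivalent to the same statements over `F[σ]`, and
to the vanishing of the invariants of `V_ℓ(Br)` over `F[σ]`. Moreover, if the cohomology is
semisimple, the Lie algebra of the image of the Galois group of `F[σ]` contains the derived algebra of
the Lie algebra of the image of the Galois group of `F`, and the image of the Galois group of `F[σ]`
is OPEN in that of `F` if the latter Lie algebra is perfect.
-/

set_option autoImplicit false
set_option linter.unusedSectionVars false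

namespace Pool.Agent.Results.MP_17a657_ag.RandomGaloisExtensions

open MeasureTheory Topology Filter

/-- A matrix over `ℤ_ℓ` viewed over `ℚ_ℓ`. -/
noncomputable def rat {ℓ : ℕ} [Fact ℓ.Prime] {N : ℕ} (g : GL (Fin N) ℤ_[ℓ]) :
    Matrix (Fin N) (Fin N) ℚ_[ℓ] :=
  (g : Matrix (Fin N) (Fin N) ℤ_[ℓ]).map (algebraMap ℤ_[ℓ] ℚ_[ℓ])

/-- A set of matrices acts semisimply: every stable subspace has a stable complement. -/
def Semisimple {ℓ : ℕ} [Fact ℓ.Prime] {N : ℕ} (S : Set (Matrix (Fin N) (Fin N) ℚ_[ℓ])) : Prop :=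
  ∀ W : Submodule ℚ_[ℓ] (Fin N → ℚ_[ℓ]), (∀ A ∈ S, ∀ x ∈ W, A.mulVec x ∈ W) →
    ∃ W' : Submodule ℚ_[ℓ] (Fin N → ℚ_[ℓ]), (∀ A ∈ S, ∀ x ∈ W', A.mulVec x ∈ W') ∧ IsCompl W W'

/-- The `ℓ`-adic cycle class map of a smooth projective variety `X` over `F` in one codimension:
the continuous action `ρ` of the Galois group on a lattice `ℤ_ℓ ^ N` of the twisted cohomology
`V = ℚ_ℓ ^ N` (for divisors `V = H²(X, ℚ_ℓ(1))`), the group `C` of cycle classes over the separable
closure (for divisors the Neron-Severi group), on which Galois acts with open stabilisers, and the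
equivariant cycle class map. -/
structure CycleMap (F Ω : Type) [Field F] [Field Ω] [Algebra F Ω] where
  ℓ : ℕ
  [prime : Fact ℓ.Prime]
  N : ℕ
  ρ : Gal(Ω/F) →* GL (Fin N) ℤ_[ℓ]
  cont : Continuous fun σ => (ρ σ : Matrix (Fin N) (Fin N) ℤ_[ℓ])
  C : Type
  [group : AddCommGroup C]
  [galois : DistribMulAction Gal(Ω/F) C]
  isOpen_stabilizer : ∀ c : C, IsOpen (MulAction.stabilizer Gal(Ω/F) c : Set Gal(Ω/F))
  cl : C →+ (Fin N → ℚ_[ℓ])
  equivariant : ∀ (σ : Gal(Ω/F)) (c : C), (rat (ρ σ)).mulVec (cl c) = cl (σ • c)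

attribute [instance] CycleMap.prime CycleMap.group CycleMap.galois

variable {F Ω : Type} [Field F] [Field Ω] [Algebra F Ω]

namespace CycleMap

variable (X : CycleMap F Ω)

/-- The cohomology group `V`. -/
abbrev V : Type := Fin X.N → ℚ_[X.ℓ]

/-- The action of a Galois element on `V`. -/
noncomputable def act (σ : Gal(Ω/F)) (v : X.V) : X.V := (rat (X.ρ σ)).mulVec v

/-- The span of all cycle classes (over the separable closure). -/
noncomputable def Alg : Submodule ℚ_[X.ℓ] X.V := Submodule.span ℚ_[X.ℓ] (Set.range X.cl)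

/-- The span of the classes of the cycles fixed by the Galois group of `L`. -/
noncomputable def AlgOver (L : IntermediateField F Ω) : Submodule ℚ_[X.ℓ] X.V :=
  Submodule.span ℚ_[X.ℓ] (X.cl '' {c | ∀ σ ∈ L.fixingSubgroup, σ • c = c})

/-- The class `v` is fixed by the Galois group of `L`. -/
def FixedOver (L : IntermediateField F Ω) (v : X.V) : Prop :=
  ∀ σ ∈ L.fixingSubgroup, X.act σ v = v

/-- The Tate conjecture over `L`: the classes fixed by the Galois group of `L` are
`ℚ_ℓ`-combinations of classes of cycles fixed by the Galois group of `L`. -/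
def TateOver (L : IntermediateField F Ω) : Prop :=
  ∀ v, X.FixedOver L v → v ∈ X.AlgOver L

/-- The Tate conjecture over all finite extensions `K F'` of `K`, `F'` finite over `F`. -/
def TateAbove (K : IntermediateField F Ω) : Prop :=
  ∀ F' : IntermediateField F Ω, FiniteDimensional F F' → X.TateOver (K ⊔ F')

/-- `V` is a semisimple representation of the Galois group of `L`. -/
def SemisimpleOver (L : IntermediateField F Ω) : Prop :=
  Semisimple ((fun σ => rat (X.ρ σ)) '' (L.fixingSubgroup : Set Gal(Ω/F)))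

/-- The quotient `V / Alg` (for divisors `V_ℓ(Br)` of the geometric Brauer group) has no nonzero
invariants under the Galois group of `L`. -/
def NoTranscendental (L : IntermediateField F Ω) : Prop :=
  ∀ v : X.V, (∀ σ ∈ L.fixingSubgroup, X.act σ v - v ∈ X.Alg) → v ∈ X.Alg

/-- The quotient `V / Alg` has no nonzero invariants over any finite extension `K F'` of `K`. -/
def NoTranscendentalAbove (K : IntermediateField F Ω) : Prop :=
  ∀ F' : IntermediateField F Ω, FiniteDimensional F F' →
    X.NoTranscendental (K ⊔ F')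

/-- `v` is fixed by the Galois group of some finite extension `K F'` of `K`. -/
def TateClassAbove (K : IntermediateField F Ω) (v : X.V) : Prop :=
  ∃ F' : IntermediateField F Ω, FiniteDimensional F F' ∧
    X.FixedOver (K ⊔ F') v

/-- The square matrices over `ℚ_ℓ`. -/
abbrev Mat : Type := Matrix (Fin X.N) (Fin X.N) ℚ_[X.ℓ]

/-- The matrix `(ρ (σ) - 1) / ℓ ^ m`. -/
noncomputable def quot (m : ℕ) (σ : Gal(Ω/F)) : X.Mat :=
  ((X.ℓ : ℚ_[X.ℓ]) ^ m)⁻¹ • (rat (X.ρ σ) - 1)

/-- The matrix `A` belongs to the Lie algebra of the image of the Galois group of `L`: it is a limit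
of `(ρ (σ_m) - 1) / ℓ ^ m` with `σ_m` in this group. -/
def InLie (L : IntermediateField F Ω) (A : X.Mat) : Prop :=
  ∃ σ : ℕ → Gal(Ω/F), (∀ m, σ m ∈ L.fixingSubgroup) ∧
    Tendsto (fun m : ℕ => X.quot m (σ m)) atTop (𝓝 A)

/-- The bracket of two matrices. -/
noncomputable def bracket (A B : X.Mat) : X.Mat := A * B - B * A

/-- The Lie algebra of the image of the Galois group of `L` contains all brackets of the Lie algebra
of the image of the Galois group of `F`. -/
def ContainsBrackets (L : IntermediateField F Ω) : Prop :=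
  ∀ A B, X.InLie ⊥ A → X.InLie ⊥ B → X.InLie L (X.bracket A B)

/-- The brackets of the elements of the Lie algebra of the image of the Galois group of `F`. -/
def brackets : Set X.Mat := {D | ∃ B C, X.InLie ⊥ B ∧ X.InLie ⊥ C ∧ D = X.bracket B C}

/-- The Lie algebra of the image of the Galois group of `F` is perfect: it is spanned by its
brackets. -/
def Perfect : Prop := ∀ A, X.InLie ⊥ A → A ∈ Submodule.span ℚ_[X.ℓ] X.brackets

/-- The image of the Galois group of `L` is open in the image of the Galois group of `F`: it contains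
the image of the Galois group of a finite extension of `F`. -/
def OpenImage (L : IntermediateField F Ω) : Prop :=
  ∃ F' : IntermediateField F Ω, FiniteDimensional F F' ∧
    ∀ σ ∈ F'.fixingSubgroup, ∃ τ ∈ L.fixingSubgroup, X.ρ τ = X.ρ σ

end CycleMap

/-- `F[σ]`: the fixed field of the normal subgroup generated by `σ`. -/
noncomputable def hull (σ : Gal(Ω/F)) : IntermediateField F Ω :=
  IntermediateField.fixedField (Subgroup.normalClosure {σ})

/-- `K` is the largest Galois extension of `F` on which `σ` acts trivially. -/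
def IsLargestGalois (σ : Gal(Ω/F)) (K : IntermediateField F Ω) : Prop :=
  IsGalois F K ∧ (∀ x ∈ K, σ x = x) ∧
    ∀ L : IntermediateField F Ω, IsGalois F L → (∀ x ∈ L, σ x = x) → L ≤ K

section Proofs

variable [IsGalois F Ω]

open Pool.Agent.H850.TF Pool.Agent.H850.RG

theorem rat_eq (X : CycleMap F Ω) (σ : Gal(Ω/F)) :
    rat (X.ρ σ) = Pool.Agent.H850.TF.rat X.ρ σ := rfl

theorem exists_field {U : Subgroup Gal(Ω/F)} (hU : IsOpen (U : Set Gal(Ω/F))) :
    ∃ L : IntermediateField F Ω, FiniteDimensional F L ∧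
      L.fixingSubgroup ≤ U := by
  have h1 : (U : Set Gal(Ω/F)) ∈ 𝓝 (1 : Gal(Ω/F)) := hU.mem_nhds U.one_mem
  rw [krullTopology_mem_nhds_one_iff] at h1
  exact h1

theorem le_hull (σ : Gal(Ω/F)) : Subgroup.normalClosure {σ} ≤ (hull σ).fixingSubgroup :=
  (IntermediateField.le_iff_le _ _).1 le_rfl

instance normal_hull (σ : Gal(Ω/F)) : (hull σ).fixingSubgroup.Normal := by
  have hN : (Subgroup.normalClosure {σ} : Subgroup Gal(Ω/F)).Normal :=
    Subgroup.normalClosure_normal
  refine ⟨fun h hh g => ?_⟩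
  rw [IntermediateField.mem_fixingSubgroup_iff] at hh ⊢
  intro x hx
  have h1 : g⁻¹ x ∈ hull σ := by
    rw [hull, IntermediateField.mem_fixedField_iff] at hx ⊢
    intro n hn
    have h2 : g * n * g⁻¹ ∈ Subgroup.normalClosure {σ} := hN.conj_mem n hn g
    have h3 := hx _ h2
    have h4 := congrArg (fun y => g⁻¹ y) h3
    simp only [AlgEquiv.mul_apply] at h4
    have h5 : ∀ y, g⁻¹ (g y) = y := fun y => g.symm_apply_apply y
    rw [h5] at h4
    exact h4
  have h2 := hh _ h1
  simp only [AlgEquiv.mul_apply]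
  rw [h2]
  exact g.apply_symm_apply x

theorem isGalois_hull (σ : Gal(Ω/F)) : IsGalois F (hull σ) :=
  (InfiniteGalois.normal_iff_isGalois (hull σ)).1 (normal_hull σ)

theorem hull_maximal (σ : Gal(Ω/F)) (L : IntermediateField F Ω) (hL : IsGalois F L)
    (h : ∀ x ∈ L, σ x = x) : L ≤ hull σ := by
  have hn : L.fixingSubgroup.Normal := (InfiniteGalois.normal_iff_isGalois L).2 hL
  rw [hull, IntermediateField.le_iff_le]
  apply Subgroup.normalClosure_le_normal
  rw [Set.singleton_subset_iff]
  exact (IntermediateField.mem_fixingSubgroup_iff _ _).2 h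

theorem semisimple_iff (X : CycleMap F Ω) (L : IntermediateField F Ω) :
    X.SemisimpleOver L ↔ SS (stdr X.ρ) (L.fixingSubgroup : Set Gal(Ω/F)) := by
  have h1 : ∀ W : Submodule ℚ_[X.ℓ] X.V,
      (∀ A ∈ (fun σ => rat (X.ρ σ)) '' (L.fixingSubgroup : Set Gal(Ω/F)), ∀ x ∈ W,
        A.mulVec x ∈ W) ↔ ∀ σ ∈ (L.fixingSubgroup : Set Gal(Ω/F)), ∀ x ∈ W,
          stdr X.ρ σ x ∈ W := by
    intro W
    constructor
    · intro h σ hσ x hx
      exact h _ ⟨σ, hσ, rfl⟩ x hx
    · rintro h _ ⟨σ, hσ, rfl⟩ x hx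
      exact h σ hσ x hx
  unfold CycleMap.SemisimpleOver Semisimple SS
  simp only [h1]

theorem semisimple_bot (X : CycleMap F Ω) :
    X.SemisimpleOver ⊥ ↔ SS (stdr X.ρ) Set.univ := by
  rw [semisimple_iff, IntermediateField.fixingSubgroup_bot, Subgroup.coe_top]

/-- descent of combinations of cycle classes -/
theorem descent (X : CycleMap F Ω) {v : X.V} (hv : v ∈ X.Alg)
    (L : IntermediateField F Ω) (hL : X.FixedOver L v) :
    v ∈ X.AlgOver L := by
  classical
  change v ∈ Submodule.span ℚ_[X.ℓ] (X.cl '' {c | ∀ σ ∈ L.fixingSubgroup, σ • c = c})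
  set H := L.fixingSubgroup with hH
  rw [CycleMap.Alg, Finsupp.mem_span_range_iff_exists_finsupp] at hv
  obtain ⟨c, hc⟩ := hv
  set U : Subgroup Gal(Ω/F) := ⨅ e : c.support, MulAction.stabilizer Gal(Ω/F) (e : X.C) with hU
  have hUopen : IsOpen (U : Set Gal(Ω/F)) := by
    rw [hU, Subgroup.coe_iInf]
    exact isOpen_iInter_of_finite fun e => X.isOpen_stabilizer e
  have hUfix : ∀ e ∈ c.support, ∀ u ∈ U, u • e = e := by
    intro e he u hu
    rw [hU, Subgroup.mem_iInf] at hu
    exact hu ⟨e, he⟩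
  have hfin : Finite (Gal(Ω/F) ⧸ U) := Subgroup.quotient_finite_of_isOpen U hUopen
  have hidx : U.FiniteIndex := Subgroup.finiteIndex_of_finite_quotient
  have hfinQ : Finite (H ⧸ U.subgroupOf H) := inferInstance
  have : Fintype (H ⧸ U.subgroupOf H) := Fintype.ofFinite _
  set n : ℕ := Fintype.card (H ⧸ U.subgroupOf H) with hn
  have hn0 : n ≠ 0 := Fintype.card_ne_zero
  let av : X.C → X.C := fun e => ∑ q : H ⧸ U.subgroupOf H, (q.out : Gal(Ω/F)) • e
  have hav : ∀ e ∈ c.support, ∀ σ ∈ H, σ • av e = av e := by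
    intro e he σ hσ
    change σ • (∑ q : H ⧸ U.subgroupOf H, (q.out : Gal(Ω/F)) • e) =
      ∑ q : H ⧸ U.subgroupOf H, (q.out : Gal(Ω/F)) • e
    rw [Finset.smul_sum]
    have h2 : ∀ q : H ⧸ U.subgroupOf H, σ • (q.out : Gal(Ω/F)) • e =
        (((⟨σ, hσ⟩ : H) • q).out : Gal(Ω/F)) • e := by
      intro q
      have h3 : ((⟨σ, hσ⟩ : H) * q.out : H)⁻¹ * ((⟨σ, hσ⟩ : H) • q).out ∈ U.subgroupOf H := by
        rw [← QuotientGroup.eq, QuotientGroup.out_eq']
        have h4 : (q : H ⧸ U.subgroupOf H) = QuotientGroup.mk q.out := (QuotientGroup.out_eq' q).symm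
        conv_rhs => rw [h4]
        rfl
      have h5 := hUfix e he _ (Subgroup.mem_subgroupOf.1 h3)
      have h6 : (((⟨σ, hσ⟩ : H) • q).out : Gal(Ω/F)) = (σ * (q.out : Gal(Ω/F))) *
          ((((⟨σ, hσ⟩ : H) * q.out : H)⁻¹ * ((⟨σ, hσ⟩ : H) • q).out : H) : Gal(Ω/F)) := by
        push_cast
        group
      rw [h6, mul_smul, h5, mul_smul]
    simp_rw [h2]
    exact Equiv.sum_comp (MulAction.toPerm (⟨σ, hσ⟩ : H)) fun q : H ⧸ U.subgroupOf H =>
      (q.out : Gal(Ω/F)) • e
  have hconj : ∀ σ ∈ H, v = c.sum fun e a => a • X.cl (σ • e) := by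
    intro σ hσ
    have h1 : (rat (X.ρ σ)).mulVec v = c.sum fun e a => a • X.cl (σ • e) := by
      have h2 : (rat (X.ρ σ)).mulVec v = (rat (X.ρ σ)).mulVecLin v := rfl
      rw [h2, ← hc, Finsupp.sum, map_sum, Finsupp.sum]
      refine Finset.sum_congr rfl fun e _ => ?_
      rw [map_smul, Matrix.mulVecLin_apply, X.equivariant]
    rw [← h1]
    exact (hL σ hσ).symm
  have hn0' : (n : ℚ_[X.ℓ]) ≠ 0 := by exact_mod_cast hn0
  have hX2 : v = (n : ℚ_[X.ℓ])⁻¹ • ∑ q : H ⧸ U.subgroupOf H, v := by
    rw [Finset.sum_const, Finset.card_univ, ← hn, ← Nat.cast_smul_eq_nsmul ℚ_[X.ℓ], smul_smul,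
      inv_mul_cancel₀ hn0', one_smul]
  have hX3 : v = ∑ e ∈ c.support, ((n : ℚ_[X.ℓ])⁻¹ * c e) • X.cl (av e) := by
    rw [hX2]
    have h4 : ∑ q : H ⧸ U.subgroupOf H, v =
        ∑ q : H ⧸ U.subgroupOf H, c.sum fun e a => a • X.cl ((q.out : Gal(Ω/F)) • e) :=
      Finset.sum_congr rfl fun q _ => hconj _ q.out.2
    rw [h4]
    simp only [Finsupp.sum]
    rw [Finset.sum_comm, Finset.smul_sum]
    refine Finset.sum_congr rfl fun e _ => ?_
    rw [← Finset.smul_sum, smul_smul, ← map_sum]
  rw [hX3]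
  refine Submodule.sum_mem _ fun e he => Submodule.smul_mem _ _ (Submodule.subset_span ?_)
  exact ⟨av e, hav e he, rfl⟩

theorem stable_alg (X : CycleMap F Ω) (σ : Gal(Ω/F)) {v : X.V} (hv : v ∈ X.Alg) :
    X.act σ v ∈ X.Alg := by
  change (rat (X.ρ σ)).mulVecLin v ∈ X.Alg
  unfold CycleMap.Alg at hv ⊢
  induction hv using Submodule.span_induction with
  | mem x hx =>
    obtain ⟨c, rfl⟩ := hx
    rw [Matrix.mulVecLin_apply, X.equivariant]
    exact Submodule.subset_span ⟨_, rfl⟩
  | zero => rw [map_zero]; exact Submodule.zero_mem _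
  | add x y _ _ h h' => rw [map_add]; exact Submodule.add_mem _ h h'
  | smul a x _ h => rw [map_smul]; exact Submodule.smul_mem _ _ h

theorem algOver_le (X : CycleMap F Ω) (L : IntermediateField F Ω) : X.AlgOver L ≤ X.Alg :=
  Submodule.span_mono (Set.image_subset_range _ _)

theorem act_add (X : CycleMap F Ω) (σ : Gal(Ω/F)) (a b : X.V) :
    X.act σ (a + b) = X.act σ a + X.act σ b := Matrix.mulVec_add _ _ _

theorem noTrans_iff (X : CycleMap F Ω) (hss : X.SemisimpleOver ⊥)
    (L : IntermediateField F Ω) : X.TateOver L ↔ X.NoTranscendental L := by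
  constructor
  · intro hT v hv
    obtain ⟨W', hW', hc⟩ := (semisimple_bot X).1 hss X.Alg fun σ _ x hx => stable_alg X σ hx
    have h1 : v ∈ X.Alg ⊔ W' := by rw [hc.sup_eq_top]; trivial
    obtain ⟨a, ha, w, hw, rfl⟩ := Submodule.mem_sup.1 h1
    refine Submodule.add_mem _ ha ?_
    have h2 : X.FixedOver L w := by
      intro σ hσ
      have h3 := hv σ hσ
      have h4 : X.act σ (a + w) - (a + w) = (X.act σ a - a) + (X.act σ w - w) := by
        rw [act_add]
        abel
      rw [h4] at h3
      have h5 : X.act σ w - w ∈ X.Alg := by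
        have h6 := Submodule.sub_mem _ h3 (Submodule.sub_mem _ (stable_alg X σ ha) ha)
        rwa [add_sub_cancel_left] at h6
      have h7 : X.act σ w - w ∈ W' := Submodule.sub_mem _ (hW' σ trivial w hw) hw
      exact sub_eq_zero.1 ((Submodule.disjoint_def.1 hc.disjoint) _ h5 h7)
    exact algOver_le X L (hT w h2)
  · intro hN v hv
    refine descent X (hN v fun σ hσ => ?_) L hv
    rw [hv σ hσ, sub_self]
    exact Submodule.zero_mem _

theorem inLie_iff (X : CycleMap F Ω) (L : IntermediateField F Ω)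
    (A : Matrix (Fin X.N) (Fin X.N) ℚ_[X.ℓ]) :
    X.InLie L A ↔ A ∈ Pool.Agent.H850.LA.tanH X.ρ L.fixingSubgroup :=
  (Pool.Agent.H850.LA.mem_tanH X.ρ _ A).symm

theorem inLie_bot_iff (X : CycleMap F Ω) (A : Matrix (Fin X.N) (Fin X.N) ℚ_[X.ℓ]) :
    X.InLie ⊥ A ↔ A ∈ Pool.Agent.H850.LA.tanH X.ρ (⊤ : Subgroup Gal(Ω/F)) := by
  rw [inLie_iff, IntermediateField.fixingSubgroup_bot]

/-- the image is open if the Lie algebra is perfect -/
theorem open_image (X : CycleMap F Ω) (L : IntermediateField F Ω)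
    (hbr : X.ContainsBrackets L) (hP : X.Perfect) : X.OpenImage L := by
  obtain ⟨V, hV, h1⟩ := Pool.Agent.H850.LA.open_of_brackets (ρ := X.ρ) X.cont
    (H := L.fixingSubgroup)
    (fun A hA B hB => (inLie_iff X L _).1
      (hbr A B ((inLie_bot_iff X A).2 hA) ((inLie_bot_iff X B).2 hB)))
    (fun A hA => by
      have h2 := hP A ((inLie_bot_iff X A).2 hA)
      unfold Pool.Agent.H850.LA.brk
      refine Submodule.span_mono ?_ h2
      rintro _ ⟨B, C, hB, hC, rfl⟩
      exact ⟨B, (inLie_bot_iff X B).1 hB, C, (inLie_bot_iff X C).1 hC, rfl⟩)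
  obtain ⟨F', hF', hle⟩ := exists_field hV
  have hcont : Continuous fun σ : Gal(Ω/F) => Pool.Agent.H850.TF.rat X.ρ σ :=
    (Pool.Agent.H850.TF.continuous_toQ).comp X.cont
  have hcomp : IsCompact (Pool.Agent.H850.TF.rat X.ρ ''
      (L.fixingSubgroup : Set Gal(Ω/F))) :=
    ((InfiniteGalois.fixingSubgroup_isClosed L).isCompact).image hcont
  refine ⟨F', hF', fun σ hσ => ?_⟩
  have h3 := h1 σ (hle hσ)
  rw [hcomp.isClosed.closure_eq] at h3
  obtain ⟨τ, hτ, hτσ⟩ := h3
  refine ⟨τ, hτ, ?_⟩
  apply Units.ext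
  have h4 : Function.Injective (fun A : Matrix (Fin X.N) (Fin X.N) ℤ_[X.ℓ] =>
      A.map (algebraMap ℤ_[X.ℓ] ℚ_[X.ℓ])) :=
    Matrix.map_injective (IsFractionRing.injective ℤ_[X.ℓ] ℚ_[X.ℓ])
  exact h4 hτσ

theorem CR_of_semisimpleOver (X : CycleMap F Ω) (h : X.SemisimpleOver ⊥) :
    Pool.Agent.H850.TF.CR (Set.range (Pool.Agent.H850.TF.rat X.ρ)) := by
  intro W hW
  obtain ⟨W', hW', hc⟩ := h W (by
    rintro _ ⟨σ, _, rfl⟩ x hx
    exact hW _ ⟨σ, rfl⟩ x hx)
  refine ⟨W', ?_, hc⟩
  rintro _ ⟨σ, rfl⟩ x hx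
  refine hW' _ ⟨σ, ?_, rfl⟩ x hx
  rw [IntermediateField.fixingSubgroup_bot]
  trivial

end Proofs

/-- **The Tate conjecture over random Galois extensions.** Let `F` be a field and `X i` countably
many cycle class maps of varieties over `F`, for arbitrary primes. For almost all `σ` in the
absolute Galois group of `F`:
(0) `F[σ]` is the largest Galois extension of `F` on which `σ` acts trivially;
and for all `i`:
(1) the cohomology `V` is semisimple over `F[σ]` if and only if it is semisimple over `F`;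
(2) if it is, the classes fixed by the Galois group of a finite extension of `F[σ]` are those
fixed by the Galois group of a finite extension of `F`;
(3) semisimplicity and the Tate conjecture over all finite extensions of `F` hold if and only if
they hold over `F[σ]` and all its finite extensions;
(4) if `V` is semisimple, the Tate conjecture over all finite extensions of `F` holds if and only
if `V / Alg` has no invariants over any finite extension of `F[σ]`;
(5) if `V` is semisimple, the Lie algebra of the image of the Galois group of `F[σ]` contains all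
brackets of the Lie algebra of the image of the Galois group of `F`;
(6) if `V` is semisimple and the latter Lie algebra is perfect, the image of the Galois group of
`F[σ]` is open in the image of the Galois group of `F`. -/
theorem result [IsGalois F Ω] [MeasurableSpace Gal(Ω/F)] [BorelSpace Gal(Ω/F)]
    (μ : Measure Gal(Ω/F))
    [μ.IsHaarMeasure] {ι : Type} [Countable ι] (X : ι → CycleMap F Ω) :
    ∀ᵐ σ ∂μ, IsLargestGalois σ (hull σ) ∧ ∀ i,
      ((X i).SemisimpleOver (hull σ) ↔ (X i).SemisimpleOver ⊥) ∧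
      ((X i).SemisimpleOver ⊥ → ∀ v,
        (X i).TateClassAbove (hull σ) v ↔ (X i).TateClassAbove ⊥ v) ∧
      (((X i).SemisimpleOver (hull σ) ∧ (X i).TateAbove (hull σ)) ↔
        ((X i).SemisimpleOver ⊥ ∧ (X i).TateAbove ⊥)) ∧
      ((X i).SemisimpleOver ⊥ →
        ((X i).TateAbove ⊥ ↔ (X i).NoTranscendentalAbove (hull σ))) ∧
      ((X i).SemisimpleOver ⊥ → (X i).ContainsBrackets (hull σ)) ∧
      ((X i).SemisimpleOver ⊥ → (X i).Perfect → (X i).OpenImage (hull σ)) := by
  have hmain : ∀ᵐ σ ∂μ, ∀ i, _ := ae_all_iff.2 fun i =>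
    Pool.Agent.H850.RG.ae_main μ (X i).cont (Pool.Agent.H850.RG.stdr (X i).ρ)
      (Pool.Agent.H850.RG.stdr_MC (X i).ρ)
  have hlie : ∀ᵐ σ ∂μ, ∀ i, _ := ae_all_iff.2 fun i =>
    (Pool.Agent.H850.LA.cn_brackets μ (X i).cont).ae
  filter_upwards [hmain, hlie] with σ hσ hσL
  refine ⟨⟨isGalois_hull σ, ?_, hull_maximal σ⟩, fun i => ?_⟩
  · intro x hx
    have h1 := le_hull σ (Subgroup.subset_normalClosure (Set.mem_singleton σ))
    exact (IntermediateField.mem_fixingSubgroup_iff _ _).1 h1 x hx
  obtain ⟨h1, h2⟩ := hσ i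
  have hN : (Subgroup.normalClosure {σ} : Subgroup Gal(Ω/F)).Normal :=
    Subgroup.normalClosure_normal
  have hS : (X i).SemisimpleOver (hull σ) ↔ (X i).SemisimpleOver ⊥ := by
    rw [semisimple_bot, semisimple_iff]
    constructor
    · intro h
      exact h1 (h.clifford' (le_hull σ))
    · intro h
      exact h.clifford _
  have hF : (X i).SemisimpleOver ⊥ → ∀ F' : IntermediateField F Ω,
      FiniteDimensional F F' → ∀ v, (X i).FixedOver (hull σ ⊔ F') v →
        ∃ F'' : IntermediateField F Ω,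
          FiniteDimensional F F'' ∧ (X i).FixedOver F'' v := by
    intro hss F' hF' v hv
    obtain ⟨F'', hF'', hle⟩ := exists_field (Pool.Agent.H850.TF.isOpen_U1 (X i).ρ (X i).cont)
    refine ⟨F'', hF'', fun τ hτ => ?_⟩
    refine h2 ((semisimple_bot (X i)).1 hss) F'.fixingSubgroup F'.fixingSubgroup_isOpen v ?_ τ
      (hle hτ)
    intro t ht htF
    refine hv t ?_
    rw [IntermediateField.fixingSubgroup_sup]
    exact ⟨le_hull σ ht, htF⟩
  have hup : (X i).SemisimpleOver ⊥ → (X i).TateAbove ⊥ → (X i).TateAbove (hull σ) := by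
    intro hss hT F' hF' v hv
    obtain ⟨F'', hF'', hv''⟩ := hF hss F' hF' v hv
    refine descent (X i) ?_ _ hv
    have h3 := hT F'' hF'' v (by rwa [bot_sup_eq])
    exact algOver_le _ _ h3
  have hdown : (X i).TateAbove (hull σ) → (X i).TateAbove ⊥ := by
    intro hT F' hF' v hv
    refine descent (X i) ?_ _ hv
    have h3 := hT F' hF' v (by
      intro τ hτ
      refine hv τ ?_
      rw [bot_sup_eq]
      rw [IntermediateField.fixingSubgroup_sup] at hτ
      exact hτ.2)
    exact algOver_le _ _ h3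
  have hbr : (X i).SemisimpleOver ⊥ → (X i).ContainsBrackets (hull σ) := by
    intro hss A B hA hB
    rw [inLie_iff]
    exact Pool.Agent.H850.LA.tanH_mono (X i).ρ (le_hull σ)
      (hσL i (CR_of_semisimpleOver (X i) hss) A ((inLie_bot_iff (X i) A).1 hA) B
        ((inLie_bot_iff (X i) B).1 hB))
  refine ⟨hS, ?_, ⟨fun h => ⟨hS.1 h.1, hdown h.2⟩, fun h => ⟨hS.2 h.1, hup h.1 h.2⟩⟩, ?_, hbr,
    fun hss hP => open_image (X i) _ (hbr hss) hP⟩
  · intro hss v
    constructor
    · rintro ⟨F', hF', hv⟩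
      obtain ⟨F'', hF'', hv''⟩ := hF hss F' hF' v hv
      exact ⟨F'', hF'', by rwa [bot_sup_eq]⟩
    · rintro ⟨F', hF', hv⟩
      refine ⟨F', hF', fun τ hτ => hv τ ?_⟩
      rw [bot_sup_eq]
      rw [IntermediateField.fixingSubgroup_sup] at hτ
      exact hτ.2
  · intro hss
    constructor
    · intro hT F' hF'
      exact (noTrans_iff (X i) hss _).1 (hup hss hT F' hF')
    · intro hN'
      exact hdown fun F' hF' => (noTrans_iff (X i) hss _).2 (hN' F' hF')

end Pool.Agent.Results.MP_17a657_ag.RandomGaloisExtensions
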